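import Mathlib

/-!
# Bounded functionals on almost periodic polynomials with exponents in `(-A, A)`
-/

set_option autoImplicit false

open MeasureTheory

namespace Pool.Agent.H731R2

/-- The open interval `(-A, A)` of the real line, where `A` is an extended real number
(used for `A ∈ (0, ∞]`; for `A = ∞` this is the whole line). -/
def Dom (A : EReal) : Set ℝ := {x : ℝ | -A < (x : EReal) ∧ (x : EReal) < A}

/-- Lebesgue measure on the interval `(-A, A)`. A function on `Dom A` is Lebesgue measurable when it is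
`AEMeasurable` for this measure. -/
noncomputable def leb (A : EReal) : Measure (Dom A) := Measure.comap Subtype.val volume

/-- The almost periodic polynomial `t ↦ ∑ c_l e^{ilt}` with (finitely many nonzero) coefficients
`c_l` and exponents `l ∈ (-A, A)`. -/
noncomputable def apPoly {A : EReal} (c : Dom A →₀ ℂ) (t : ℝ) : ℂ :=
  c.sum fun l a => a * Complex.exp (Complex.I * (((l : ℝ) : ℂ) * (t : ℂ)))

/-- The value `Φ_f(P) = ∑ c_l f(l)` of the functional with characteristic function `f` at the
almost periodic polynomial `P` with coefficients `c`. -/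
noncomputable def pairing {A : EReal} (f : Dom A → ℂ) (c : Dom A →₀ ℂ) : ℂ :=
  c.sum fun l a => a * f l

/-- `f` is the characteristic function of a bounded functional: `f ∈ R_A`. -/
def MemR {A : EReal} (f : Dom A → ℂ) : Prop :=
  ∃ C : ℝ, ∀ c : Dom A →₀ ℂ, ‖pairing f c‖ ≤ C * ⨆ t : ℝ, ‖apPoly c t‖

/-- `f` is the characteristic function of a non-negative (bounded) functional: `f ∈ 𝔓_A`. -/
def MemP {A : EReal} (f : Dom A → ℂ) : Prop :=
  MemR f ∧ ∀ c : Dom A →₀ ℂ, (∀ t : ℝ, (apPoly c t).im = 0 ∧ 0 ≤ (apPoly c t).re) →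
    (pairing f c).im = 0 ∧ 0 ≤ (pairing f c).re

/-- `(-A, A)` is symmetric. -/
theorem neg_mem_dom {A : EReal} {x : ℝ} (hx : x ∈ Dom A) : -x ∈ Dom A := by
  obtain ⟨h1, h2⟩ := hx
  refine ⟨?_, ?_⟩
  · rw [EReal.coe_neg]; exact EReal.neg_lt_neg_iff.2 h2
  · rw [EReal.coe_neg]; exact EReal.neg_lt_comm.1 h1

/-- `f` is Hermitian: `f(-l)` is the complex conjugate of `f(l)` on `(-A, A)`. -/
def Hermitian {A : EReal} (f : Dom A → ℂ) : Prop :=
  ∀ l : Dom A, f ⟨-(l : ℝ), neg_mem_dom l.2⟩ = (starRingEnd ℂ) (f l)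

end Pool.Agent.H731R2
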