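import Mathlib
import Pool.Agent.H731R2.Defs

set_option autoImplicit false
set_option linter.unusedSectionVars false

open MeasureTheory Filter Topology Set

namespace Pool.Agent.H731R2

theorem isOpen_dom (A : EReal) : IsOpen (Dom A) := by
  have h1 : IsOpen {x : ℝ | -A < (x : EReal)} :=
    isOpen_lt continuous_const continuous_coe_real_ereal
  have h2 : IsOpen {x : ℝ | (x : EReal) < A} :=
    isOpen_lt continuous_coe_real_ereal continuous_const
  exact h1.inter h2

theorem measurableSet_dom (A : EReal) : MeasurableSet (Dom A) := (isOpen_dom A).measurableSet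

theorem zero_mem_dom {A : EReal} (hA : 0 < A) : (0 : ℝ) ∈ Dom A := by
  refine ⟨?_, ?_⟩
  · rw [EReal.coe_zero, EReal.neg_lt_comm, neg_zero]; exact hA
  · rw [EReal.coe_zero]; exact hA

variable {A : EReal}

/-- The one-term coefficient family, zero outside `(-A, A)`. -/
noncomputable def sg (A : EReal) (y : ℝ) (a : ℂ) : Dom A →₀ ℂ := by
  classical exact if h : y ∈ Dom A then Finsupp.single ⟨y, h⟩ a else 0

/-- Extension by zero. -/
noncomputable def ext0 (f : Dom A → ℂ) (y : ℝ) : ℂ := by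
  classical exact if h : y ∈ Dom A then f ⟨y, h⟩ else 0

theorem ext0_coe (f : Dom A → ℂ) (y : Dom A) : ext0 f (y : ℝ) = f y := by
  unfold ext0
  rw [dif_pos y.2]

theorem pairing_add (f : Dom A → ℂ) (c d : Dom A →₀ ℂ) :
    pairing f (c + d) = pairing f c + pairing f d :=
  Finsupp.sum_add_index' (by simp) (by intros; ring)

theorem pairing_zero (f : Dom A → ℂ) : pairing f 0 = 0 := Finsupp.sum_zero_index

theorem pairing_sum {ι : Type*} (f : Dom A → ℂ) (s : Finset ι) (c : ι → Dom A →₀ ℂ) :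
    pairing f (∑ i ∈ s, c i) = ∑ i ∈ s, pairing f (c i) := by
  classical
  induction s using Finset.induction_on with
  | empty => simp [pairing_zero]
  | insert a s ha ih => rw [Finset.sum_insert ha, Finset.sum_insert ha, pairing_add, ih]

theorem pairing_smul (f : Dom A → ℂ) (r : ℂ) (c : Dom A →₀ ℂ) :
    pairing f (r • c) = r * pairing f c := by
  unfold pairing
  rw [Finsupp.sum_smul_index (by simp), Finsupp.mul_sum]
  simp only [mul_assoc]

theorem apPoly_add (c d : Dom A →₀ ℂ) (t : ℝ) : apPoly (c + d) t = apPoly c t + apPoly d t :=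
  Finsupp.sum_add_index' (by simp) (by intros; ring)

theorem apPoly_zero (t : ℝ) : apPoly (0 : Dom A →₀ ℂ) t = 0 := Finsupp.sum_zero_index

theorem apPoly_sum {ι : Type*} (s : Finset ι) (c : ι → Dom A →₀ ℂ) (t : ℝ) :
    apPoly (∑ i ∈ s, c i) t = ∑ i ∈ s, apPoly (c i) t := by
  classical
  induction s using Finset.induction_on with
  | empty => simp [apPoly_zero]
  | insert a s ha ih => rw [Finset.sum_insert ha, Finset.sum_insert ha, apPoly_add, ih]

theorem apPoly_smul (r : ℂ) (c : Dom A →₀ ℂ) (t : ℝ) :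
    apPoly (r • c) t = r * apPoly c t := by
  unfold apPoly
  rw [Finsupp.sum_smul_index (by simp), Finsupp.mul_sum]
  simp only [mul_assoc]

theorem pairing_sg (f : Dom A → ℂ) (y : ℝ) (a : ℂ) : pairing f (sg A y a) = a * ext0 f y := by
  unfold sg ext0
  by_cases h : y ∈ Dom A
  · rw [dif_pos h, dif_pos h]
    exact Finsupp.sum_single_index (by simp)
  · rw [dif_neg h, dif_neg h, pairing_zero, mul_zero]

theorem apPoly_sg (y : ℝ) (a : ℂ) (t : ℝ) (h : y ∉ Dom A → a = 0) :
    apPoly (sg A y a) t = a * Complex.exp (Complex.I * ((y : ℂ) * (t : ℂ))) := by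
  unfold sg
  by_cases h' : y ∈ Dom A
  · rw [dif_pos h']
    exact Finsupp.sum_single_index (by simp)
  · rw [dif_neg h', apPoly_zero, h h', zero_mul]

theorem norm_exp_I_mul (x t : ℝ) : ‖Complex.exp (Complex.I * ((x : ℂ) * (t : ℂ)))‖ = 1 := by
  have : Complex.I * ((x : ℂ) * (t : ℂ)) = ((x * t : ℝ) : ℂ) * Complex.I := by
    push_cast; ring
  rw [this, Complex.norm_exp_ofReal_mul_I]

theorem norm_apPoly_le (c : Dom A →₀ ℂ) (t : ℝ) : ‖apPoly c t‖ ≤ ∑ l ∈ c.support, ‖c l‖ := by
  unfold apPoly Finsupp.sum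
  refine (norm_sum_le _ _).trans (Finset.sum_le_sum fun l _ => ?_)
  rw [norm_mul, norm_exp_I_mul, mul_one]

theorem bddAbove_apPoly (c : Dom A →₀ ℂ) : BddAbove (range fun t : ℝ => ‖apPoly c t‖) :=
  ⟨_, by rintro _ ⟨t, rfl⟩; exact norm_apPoly_le c t⟩

theorem sup_nonneg (c : Dom A →₀ ℂ) : 0 ≤ ⨆ t : ℝ, ‖apPoly c t‖ :=
  Real.iSup_nonneg fun _ => norm_nonneg _

theorem le_sup (c : Dom A →₀ ℂ) (t : ℝ) : ‖apPoly c t‖ ≤ ⨆ t : ℝ, ‖apPoly c t‖ :=
  le_ciSup (bddAbove_apPoly c) t

/-- A characteristic function of a bounded functional has a nonnegative bound. -/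
theorem MemR.exists_nonneg {f : Dom A → ℂ} (hf : MemR f) :
    ∃ C : ℝ, 0 ≤ C ∧ ∀ c : Dom A →₀ ℂ, ‖pairing f c‖ ≤ C * ⨆ t : ℝ, ‖apPoly c t‖ := by
  obtain ⟨C, hC⟩ := hf
  refine ⟨max C 0, le_max_right _ _, fun c => (hC c).trans ?_⟩
  exact mul_le_mul_of_nonneg_right (le_max_left _ _) (sup_nonneg c)

theorem norm_ext0_le {f : Dom A → ℂ} {C : ℝ} (hC : 0 ≤ C)
    (h : ∀ c : Dom A →₀ ℂ, ‖pairing f c‖ ≤ C * ⨆ t : ℝ, ‖apPoly c t‖) (y : ℝ) :
    ‖ext0 f y‖ ≤ C := by
  by_cases hy : y ∈ Dom A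
  · have h1 := h (sg A y 1)
    rw [pairing_sg, one_mul] at h1
    refine h1.trans ?_
    have : (⨆ t : ℝ, ‖apPoly (sg A y 1) t‖) ≤ 1 := by
      refine ciSup_le fun t => ?_
      rw [apPoly_sg y 1 t (fun h' => absurd hy h'), one_mul, norm_exp_I_mul]
    calc C * (⨆ t : ℝ, ‖apPoly (sg A y 1) t‖) ≤ C * 1 := mul_le_mul_of_nonneg_left this hC
      _ = C := mul_one C
  · unfold ext0
    rw [dif_neg hy, norm_zero]
    exact hC

theorem MemR.add {f g : Dom A → ℂ} (hf : MemR f) (hg : MemR g) : MemR (fun l => f l + g l) := by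
  obtain ⟨C, hC⟩ := hf
  obtain ⟨D, hD⟩ := hg
  refine ⟨C + D, fun c => ?_⟩
  have : pairing (fun l => f l + g l) c = pairing f c + pairing g c := by
    unfold pairing Finsupp.sum
    rw [← Finset.sum_add_distrib]
    exact Finset.sum_congr rfl fun _ _ => by ring
  rw [this, add_mul]
  exact (norm_add_le _ _).trans (add_le_add (hC c) (hD c))

theorem MemR.neg {f : Dom A → ℂ} (hf : MemR f) : MemR (fun l => - f l) := by
  obtain ⟨C, hC⟩ := hf
  refine ⟨C, fun c => ?_⟩
  have : pairing (fun l => - f l) c = - pairing f c := by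
    unfold pairing Finsupp.sum
    rw [← Finset.sum_neg_distrib]
    exact Finset.sum_congr rfl fun _ _ => by ring
  rw [this, norm_neg]
  exact hC c

theorem MemR.sub {f g : Dom A → ℂ} (hf : MemR f) (hg : MemR g) : MemR (fun l => f l - g l) := by
  simpa [sub_eq_add_neg] using hf.add hg.neg

/-- Extension by zero preserves Lebesgue measurability. -/
theorem aemeasurable_ext0 {f : Dom A → ℂ} (hf : AEMeasurable f (leb A)) :
    AEMeasurable (ext0 f) volume := by
  have hemb : MeasurableEmbedding ((↑) : Dom A → ℝ) :=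
    MeasurableEmbedding.subtype_coe (measurableSet_dom A)
  obtain ⟨g, hg, hfg⟩ := hf
  refine ⟨fun y => ext0 g y, ?_, ?_⟩
  · have : (fun y => ext0 g y) = Function.extend ((↑) : Dom A → ℝ) g 0 := by
      funext y
      by_cases h : y ∈ Dom A
      · rw [show y = ((⟨y, h⟩ : Dom A) : ℝ) from rfl, ext0_coe,
          hemb.injective.extend_apply]
      · rw [Function.extend_apply' _ _ _ (by rintro ⟨x, rfl⟩; exact h x.2)]
        unfold ext0
        rw [dif_neg h]; rfl
    rw [this]
    exact hemb.measurable_extend hg measurable_zero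
  · have h1 : ∀ᵐ y ∂(volume.restrict (Dom A)), ext0 f y = ext0 g y := by
      rw [← map_comap_subtype_coe (measurableSet_dom A), hemb.ae_map_iff]
      filter_upwards [hfg] with y hy
      rw [ext0_coe, ext0_coe, hy]
    rw [ae_restrict_iff' (measurableSet_dom A)] at h1
    filter_upwards [h1] with y hy
    by_cases h : y ∈ Dom A
    · exact hy h
    · unfold ext0
      rw [dif_neg h, dif_neg h]

/-- Transfer of almost everywhere statements between the subtype and the line. -/
theorem ae_dom_iff {p : ℝ → Prop} :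
    (∀ᵐ y : Dom A ∂(leb A), p (y : ℝ)) ↔ ∀ᵐ y : ℝ, y ∈ Dom A → p y := by
  have hemb : MeasurableEmbedding ((↑) : Dom A → ℝ) :=
    MeasurableEmbedding.subtype_coe (measurableSet_dom A)
  rw [← ae_restrict_iff' (measurableSet_dom A), ← map_comap_subtype_coe (measurableSet_dom A),
    hemb.ae_map_iff]
  rfl

end Pool.Agent.H731R2
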