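import Mathlib

/-!
# The null part of a (not necessarily continuous) unitary representation of the line

`U : ℝ → H →L[ℂ] H` is a unitary representation of the line without any continuity. `nullSub U` is
the closed subspace of the vectors `x` all of whose coefficients `a ↦ ⟪U a x, y⟫` vanish almost
everywhere. If `v ⟂ nullSub U` and a coefficient `a ↦ ⟪η, U a v⟫` vanishes almost everywhere on an
open set `D`, then it vanishes everywhere on `D`.
-/

set_option autoImplicit false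
set_option linter.unusedSectionVars false

open MeasureTheory Filter Topology Set
open scoped InnerProductSpace

namespace Pool.Agent.H731R2

variable {H : Type*} [NormedAddCommGroup H] [InnerProductSpace ℂ H] [CompleteSpace H]

/-- Weak limits of bounded families along ultrafilters. -/
theorem exists_weak_lim {α : Type*} (g : Ultrafilter α) (z : α → H) (C : ℝ) (hC : 0 ≤ C)
    (hz : ∀ a, ‖z a‖ ≤ C) : ∃ z' : H, ∀ x : H, Tendsto (fun a => ⟪z a, x⟫_ℂ) g (𝓝 ⟪z', x⟫_ℂ) := by
  have hlim : ∀ x : H, ∃ L : ℂ, ‖L‖ ≤ C * ‖x‖ ∧ Tendsto (fun a => ⟪z a, x⟫_ℂ) g (𝓝 L) := by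
    intro x
    have hmem : ∀ a, ⟪z a, x⟫_ℂ ∈ Metric.closedBall (0 : ℂ) (C * ‖x‖) := by
      intro a
      rw [mem_closedBall_zero_iff]
      exact (norm_inner_le_norm _ _).trans (mul_le_mul_of_nonneg_right (hz a) (norm_nonneg _))
    have hK := isCompact_closedBall (0 : ℂ) (C * ‖x‖)
    obtain ⟨L, hL, hle⟩ := hK.ultrafilter_le_nhds (g.map fun a => ⟪z a, x⟫_ℂ)
      (by
        rw [le_principal_iff]
        exact Filter.mem_map.2 (Filter.univ_mem' hmem))
    exact ⟨L, mem_closedBall_zero_iff.1 hL, hle⟩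
  choose L hLb hL using hlim
  let l : H →ₗ[ℂ] ℂ :=
    { toFun := L
      map_add' := by
        intro x y
        have h1 : Tendsto (fun a => ⟪z a, x + y⟫_ℂ) g (𝓝 (L x + L y)) := by
          simp_rw [inner_add_right]
          exact (hL x).add (hL y)
        exact tendsto_nhds_unique (hL (x + y)) h1
      map_smul' := by
        intro c x
        have h1 : Tendsto (fun a => ⟪z a, c • x⟫_ℂ) g (𝓝 (c * L x)) := by
          simp_rw [inner_smul_right]
          exact (hL x).const_mul c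
        exact tendsto_nhds_unique (hL (c • x)) h1 }
  let l' : StrongDual ℂ H := l.mkContinuous C hLb
  refine ⟨(InnerProductSpace.toDual ℂ H).symm l', fun x => ?_⟩
  rw [InnerProductSpace.toDual_symm_apply]
  exact hL x

variable {U : ℝ → H →L[ℂ] H}

/-- The vectors whose coefficients vanish almost everywhere. -/
def nullSub (U : ℝ → H →L[ℂ] H) : Submodule ℂ H where
  carrier := {x | ∀ y : H, ∀ᵐ a : ℝ, ⟪y, U a x⟫_ℂ = 0}
  add_mem' := by
    intro x x' hx hx' y
    filter_upwards [hx y, hx' y] with a h1 h2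
    rw [map_add, inner_add_right, h1, h2, add_zero]
  zero_mem' := by
    intro y
    simp
  smul_mem' := by
    intro c x hx y
    filter_upwards [hx y] with a h1
    rw [map_smul, inner_smul_right, h1, mul_zero]

theorem mem_nullSub {x : H} : x ∈ nullSub U ↔ ∀ y : H, ∀ᵐ a : ℝ, ⟪y, U a x⟫_ℂ = 0 := Iff.rfl

theorem isClosed_nullSub : IsClosed (nullSub U : Set H) := by
  rw [← isSeqClosed_iff_isClosed]
  intro xs x hxs hlim y
  have h1 : ∀ᵐ a : ℝ, ∀ n, ⟪y, U a (xs n)⟫_ℂ = 0 := ae_all_iff.2 fun n => hxs n y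
  filter_upwards [h1] with a ha
  have h2 : Tendsto (fun n => ⟪y, U a (xs n)⟫_ℂ) atTop (𝓝 ⟪y, U a x⟫_ℂ) :=
    tendsto_const_nhds.inner (((U a).continuous.tendsto x).comp hlim)
  simp only [ha] at h2
  exact (tendsto_nhds_unique h2 tendsto_const_nhds)

theorem nullSub_invariant (hadd : ∀ a b x, U (a + b) x = U a (U b x)) {x : H}
    (hx : x ∈ nullSub U) (b : ℝ) : U b x ∈ nullSub U := by
  intro y
  have h1 := hx y
  have h2 : ∀ᵐ a : ℝ, ⟪y, U (a + b) x⟫_ℂ = 0 := by
    have := (measurePreserving_add_right (volume : Measure ℝ) b).quasiMeasurePreserving.ae h1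
    exact this
  filter_upwards [h2] with a ha
  rw [← hadd, ha]

/-- A function which is locally essentially small vanishes almost everywhere. -/
theorem ae_zero_of_locally {F : ℝ → ℂ}
    (h : ∀ (b : ℝ) (ε : ℝ), 0 < ε → ∀ᶠ a in 𝓝 (0 : ℝ) ⊓ ae volume, ‖F (b + a)‖ ≤ ε) :
    ∀ᵐ a : ℝ, F a = 0 := by
  have key : ∀ n : ℕ, volume {a : ℝ | ¬ ‖F a‖ ≤ 1 / ((n : ℝ) + 1)} = 0 := by
    intro n
    apply measure_null_of_locally_null
    intro b _
    have hε : (0 : ℝ) < 1 / ((n : ℝ) + 1) := by positivity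
    have h1 := h b _ hε
    rw [eventually_inf] at h1
    obtain ⟨V, hV, W, hW, hVW⟩ := h1
    refine ⟨{a : ℝ | ¬ ‖F a‖ ≤ 1 / ((n : ℝ) + 1)} ∩ ((fun a => a - b) ⁻¹' V), ?_, ?_⟩
    · refine inter_mem_nhdsWithin _ ?_
      have : Tendsto (fun a : ℝ => a - b) (𝓝 b) (𝓝 0) := by
        have h' : Continuous fun a : ℝ => a - b := by fun_prop
        have := h'.tendsto b
        simpa using this
      exact this hV
    · have h2 : ∀ᵐ a : ℝ, a - b ∈ W :=
        (measurePreserving_sub_right (volume : Measure ℝ) b).quasiMeasurePreserving.ae hW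
      refine measure_mono_null ?_ (ae_iff.1 h2)
      rintro a ⟨ha1, ha2⟩ haW
      apply ha1
      have := hVW (a - b) ⟨ha2, haW⟩
      simpa using this
  have h2 : ∀ᵐ a : ℝ, ∀ n : ℕ, ‖F a‖ ≤ 1 / ((n : ℝ) + 1) := ae_all_iff.2 fun n => key n
  filter_upwards [h2] with a ha
  have h3 : Tendsto (fun n : ℕ => 1 / ((n : ℝ) + 1)) atTop (𝓝 0) :=
    tendsto_one_div_add_atTop_nhds_zero_nat
  have h4 : ‖F a‖ ≤ 0 := ge_of_tendsto' h3 ha
  exact norm_le_zero_iff.1 h4

/-- The key fact: a coefficient of a vector orthogonal to the null part which vanishes almost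
everywhere on an open set vanishes there. -/
theorem vanish_of_orthogonal (hadd : ∀ a b x, U (a + b) x = U a (U b x))
    (hadj : ∀ a x y, ⟪U a x, y⟫_ℂ = ⟪x, U (-a) y⟫_ℂ) (hn : ∀ a x, ‖U a x‖ ≤ ‖x‖)
    {D : Set ℝ} (hD : IsOpen D) {v η : H} (hv : v ∈ (nullSub U)ᗮ)
    (h0 : ∀ᵐ a : ℝ, a ∈ D → ⟪η, U a v⟫_ℂ = 0) : ∀ a ∈ D, ⟪η, U a v⟫_ℂ = 0 := by
  -- the closed subspace of all `y` whose coefficient vanishes on `D`
  let Y : Submodule ℂ H :=
    { carrier := {y | ∀ a ∈ D, ⟪y, U a v⟫_ℂ = 0}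
      add_mem' := by
        intro x y hx hy a ha
        rw [inner_add_left, hx a ha, hy a ha, add_zero]
      zero_mem' := by
        intro a _
        exact inner_zero_left _
      smul_mem' := by
        intro c x hx a ha
        rw [inner_smul_left, hx a ha, mul_zero] }
  have hYmem : ∀ y, y ∈ Y ↔ ∀ a ∈ D, ⟪y, U a v⟫_ℂ = 0 := fun y => Iff.rfl
  have hYc : IsClosed (Y : Set H) := by
    have : (Y : Set H) = ⋂ a ∈ D, {y : H | ⟪y, U a v⟫_ℂ = 0} := by
      ext y
      simp only [SetLike.mem_coe, mem_iInter, mem_ofPred_eq]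
      exact hYmem y
    rw [this]
    refine isClosed_biInter fun a _ => ?_
    exact isClosed_eq (continuous_id.inner continuous_const) continuous_const
  have hYcomp : CompleteSpace Y := hYc.completeSpace_coe
  obtain ⟨y, hy, θ, hθ, hηyθ⟩ : ∃ y ∈ Y, ∃ θ ∈ Yᗮ, η = y + θ :=
    Y.exists_add_mem_mem_orthogonal η
  -- weak limit points of `U a θ` as `a → 0`
  have hsmall : ∀ b ∈ D, ∀ᶠ a in 𝓝 (0 : ℝ), b - a ∈ D ∧ b + a ∈ D := by
    intro b hb
    have h1 : Tendsto (fun a : ℝ => b - a) (𝓝 0) (𝓝 b) := by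
      have h' : Continuous fun a : ℝ => b - a := by fun_prop
      have := h'.tendsto 0
      simpa using this
    have h2 : Tendsto (fun a : ℝ => b + a) (𝓝 0) (𝓝 b) := by
      have h' : Continuous fun a : ℝ => b + a := by fun_prop
      have := h'.tendsto 0
      simpa using this
    exact (h1.eventually (hD.mem_nhds hb)).and (h2.eventually (hD.mem_nhds hb))
  have hlim : ∀ x : H, Tendsto (fun a => ⟪U a θ, x⟫_ℂ) (𝓝 (0 : ℝ) ⊓ ae volume) (𝓝 0) := by
    intro x
    rw [tendsto_iff_ultrafilter]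
    intro g hg
    have hg1 : (g : Filter ℝ) ≤ 𝓝 0 := hg.trans inf_le_left
    have hg2 : (g : Filter ℝ) ≤ ae volume := hg.trans inf_le_right
    obtain ⟨θ', hθ'⟩ := exists_weak_lim g (fun a => U a θ) ‖θ‖ (norm_nonneg _) (fun a => hn a θ)
    obtain ⟨y', hy'⟩ := exists_weak_lim g (fun a => U a y) ‖y‖ (norm_nonneg _) (fun a => hn a y)
    have hy'Y : y' ∈ Y := by
      intro b hb
      have h1 : ∀ᶠ a in (g : Filter ℝ), ⟪U a y, U b v⟫_ℂ = 0 := by
        filter_upwards [hg1 (hsmall b hb)] with a ha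
        rw [hadj, ← hadd, show -a + b = b - a by ring]
        exact (hYmem y).1 hy _ ha.1
      have h2 : Tendsto (fun a => ⟪U a y, U b v⟫_ℂ) g (𝓝 0) :=
        tendsto_const_nhds.congr' (h1.mono fun a ha => ha.symm)
      exact tendsto_nhds_unique (hy' (U b v)) h2
    have hsumY : y' + θ' ∈ Y := by
      intro b hb
      have h1 : ∀ᶠ a in (g : Filter ℝ), ⟪U a η, U b v⟫_ℂ = 0 := by
        have h3 : ∀ᵐ a : ℝ, b - a ∈ D → ⟪η, U (b - a) v⟫_ℂ = 0 :=
          (Measure.measurePreserving_sub_left (volume : Measure ℝ) b).quasiMeasurePreserving.ae h0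
        filter_upwards [hg1 (hsmall b hb), hg2 h3] with a ha ha'
        rw [hadj, ← hadd, show -a + b = b - a by ring]
        exact ha' ha.1
      have h2 : Tendsto (fun a => ⟪U a η, U b v⟫_ℂ) g (𝓝 0) :=
        tendsto_const_nhds.congr' (h1.mono fun a ha => ha.symm)
      have h3 : Tendsto (fun a => ⟪U a η, U b v⟫_ℂ) g (𝓝 ⟪y' + θ', U b v⟫_ℂ) := by
        simp_rw [hηyθ, map_add, inner_add_left]
        exact (hy' _).add (hθ' _)
      exact tendsto_nhds_unique h3 h2
    have hθ'Y : θ' ∈ Y := by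
      have := Y.sub_mem hsumY hy'Y
      simpa using this
    have hθ'orth : θ' ∈ Yᗮ := by
      rw [Submodule.mem_orthogonal']
      intro z hz
      obtain ⟨z', hz'⟩ := exists_weak_lim g (fun a => U (-a) z) ‖z‖ (norm_nonneg _)
        (fun a => hn (-a) z)
      have hz'Y : z' ∈ Y := by
        intro b hb
        have h1 : ∀ᶠ a in (g : Filter ℝ), ⟪U (-a) z, U b v⟫_ℂ = 0 := by
          filter_upwards [hg1 (hsmall b hb)] with a ha
          rw [hadj, ← hadd, show - -a + b = b + a by ring]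
          exact (hYmem z).1 hz _ ha.2
        have h2 : Tendsto (fun a => ⟪U (-a) z, U b v⟫_ℂ) g (𝓝 0) :=
          tendsto_const_nhds.congr' (h1.mono fun a ha => ha.symm)
        exact tendsto_nhds_unique (hz' (U b v)) h2
      have h1 : Tendsto (fun a => ⟪U a θ, z⟫_ℂ) g (𝓝 ((starRingEnd ℂ) ⟪z', θ⟫_ℂ)) := by
        have h2 := (Complex.continuous_conj.tendsto _).comp (hz' θ)
        refine h2.congr fun a => ?_
        simp only [Function.comp_apply]
        rw [inner_conj_symm, hadj a θ z]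
      have h3 : ⟪z', θ⟫_ℂ = 0 := Submodule.inner_right_of_mem_orthogonal hz'Y hθ
      rw [h3, map_zero] at h1
      exact tendsto_nhds_unique (hθ' z) h1
    have hθ'0 : θ' = 0 := by
      have h1 : ⟪θ', θ'⟫_ℂ = 0 := Submodule.inner_right_of_mem_orthogonal hθ'Y hθ'orth
      exact inner_self_eq_zero.1 h1
    have := hθ' x
    rwa [hθ'0, inner_zero_left] at this
  -- `θ` is a null vector
  have hθnull : θ ∈ nullSub U := by
    intro x
    have h1 : ∀ᵐ a : ℝ, ⟪U a θ, x⟫_ℂ = 0 := by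
      apply ae_zero_of_locally
      intro b ε hε
      have h2 := hlim (U (-b) x)
      have h3 : ∀ᶠ a in 𝓝 (0 : ℝ) ⊓ ae volume, ‖⟪U a θ, U (-b) x⟫_ℂ‖ < ε := by
        have := (continuous_norm.tendsto _).comp h2
        rw [norm_zero] at this
        exact this.eventually_lt_const hε
      filter_upwards [h3] with a ha
      rw [hadd, hadj]
      exact ha.le
    filter_upwards [h1] with a ha
    rw [← inner_conj_symm, ha, map_zero]
  intro b hb
  rw [hηyθ, inner_add_left, (hYmem y).1 hy b hb, zero_add]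
  have h1 : ⟪θ, U b v⟫_ℂ = ⟪U (-b) θ, v⟫_ℂ := by
    rw [hadj, neg_neg]
  rw [h1]
  exact Submodule.inner_right_of_mem_orthogonal (nullSub_invariant hadd hθnull (-b)) hv

/-- A coefficient vanishing almost everywhere on an open set only depends, on that set, on the null
part of the vector. -/
theorem exists_null_part (hadd : ∀ a b x, U (a + b) x = U a (U b x))
    (hadj : ∀ a x y, ⟪U a x, y⟫_ℂ = ⟪x, U (-a) y⟫_ℂ) (hn : ∀ a x, ‖U a x‖ ≤ ‖x‖)
    {D : Set ℝ} (hD : IsOpen D) {v η : H}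
    (h0 : ∀ᵐ a : ℝ, a ∈ D → ⟪η, U a v⟫_ℂ = 0) :
    ∃ p ∈ nullSub U, ∀ a ∈ D, ⟪η, U a v⟫_ℂ = ⟪η, U a p⟫_ℂ := by
  have hc : CompleteSpace (nullSub U) := (isClosed_nullSub (U := U)).completeSpace_coe
  obtain ⟨p, hp, q, hq, hvpq⟩ : ∃ p ∈ nullSub U, ∃ q ∈ (nullSub U)ᗮ, v = p + q :=
    (nullSub U).exists_add_mem_mem_orthogonal v
  refine ⟨p, hp, fun a ha => ?_⟩
  have h1 : ∀ᵐ a : ℝ, a ∈ D → ⟪η, U a q⟫_ℂ = 0 := by
    filter_upwards [h0, hp η] with a h2 h3 ha
    have h4 := h2 ha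
    rw [hvpq, map_add, inner_add_right, h3, zero_add] at h4
    exact h4
  have h2 := vanish_of_orthogonal hadd hadj hn hD hq h1 a ha
  rw [hvpq, map_add, inner_add_right, h2, add_zero]

end Pool.Agent.H731R2
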