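import Mathlib
import Pool.Agent.H731R2.Basic

/-!
# Averaged Riemann sums: measurable elements of `R_A` act boundedly on test functions
-/

set_option autoImplicit false
set_option linter.unusedSectionVars false

open MeasureTheory Filter Topology Set
open scoped FourierTransform SchwartzMap

namespace Pool.Agent.H731R2

theorem fourier_scaled (φ : ℝ → ℂ) (N t ξ : ℝ) (hN : 0 < N) :
    𝓕 (fun y : ℝ => φ (y / N) * Complex.exp (Complex.I * (((y / N : ℝ) : ℂ) * (t : ℂ)))) ξ =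
      (N : ℂ) * 𝓕 φ (N * ξ - t / (2 * Real.pi)) := by
  rw [Real.fourier_real_eq_integral_exp_smul, Real.fourier_real_eq_integral_exp_smul]
  have h := Measure.integral_comp_div
    (fun z : ℝ => Complex.exp ((-2 * Real.pi * z * (N * ξ - t / (2 * Real.pi)) : ℝ) * Complex.I) • φ z) N
  rw [abs_of_pos hN, Complex.real_smul] at h
  rw [← h]
  congr 1
  funext y
  simp only [smul_eq_mul]
  rw [mul_comm (φ (y / N)), ← mul_assoc, ← Complex.exp_add]
  congr 2
  have hN' : (N : ℂ) ≠ 0 := by exact_mod_cast hN.ne'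
  have hpi : (Real.pi : ℂ) ≠ 0 := by exact_mod_cast Real.pi_ne_zero
  push_cast
  field_simp
  ring

theorem sum_bound (h : ℝ → ℂ) (M B : ℝ) (hM : ∀ ξ, ‖h ξ‖ ≤ M) (hB : ∀ ξ, ξ ^ 2 * ‖h ξ‖ ≤ B)
    (N τ : ℝ) (hN : 0 < N) :
    Summable (fun n : ℤ => ‖h (N * n - τ)‖) ∧
      ∑' n : ℤ, ‖h (N * n - τ)‖ ≤ M + (4 * B / N ^ 2) * ∑' m : ℤ, 1 / (m : ℝ) ^ 2 := by
  set n0 : ℤ := round (τ / N) with hn0
  have hr : |τ / N - n0| ≤ 1 / 2 := abs_sub_round _
  have hB0 : 0 ≤ B := by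
    have := hB 0
    simpa using this
  set F : ℤ → ℝ := fun m => ‖h (N * ((m + n0 : ℤ) : ℝ) - τ)‖ with hF
  set G : ℤ → ℝ := fun m => (if m = 0 then M else 0) + (4 * B / N ^ 2) * (1 / (m : ℝ) ^ 2) with hG
  have hFG : ∀ m, F m ≤ G m := by
    intro m
    simp only [hF, hG]
    by_cases hm : m = 0
    · subst hm
      simp only [if_true, Int.cast_zero, ne_eq, OfNat.ofNat_ne_zero, not_false_eq_true, zero_pow,
        div_zero, mul_zero, add_zero]
      exact hM _
    · rw [if_neg hm, zero_add]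
      have hm1 : (1 : ℝ) ≤ |(m : ℝ)| := by
        rw [← Int.cast_abs]
        exact_mod_cast Int.one_le_abs hm
      have h1 : N * |(m : ℝ)| / 2 ≤ |N * ((m + n0 : ℤ) : ℝ) - τ| := by
        have h2 : N * ((m + n0 : ℤ) : ℝ) - τ = N * ((m : ℝ) - (τ / N - n0)) := by
          push_cast; field_simp; ring
        rw [h2, abs_mul, abs_of_pos hN]
        have h3 : |(m : ℝ)| - |τ / N - n0| ≤ |(m : ℝ) - (τ / N - n0)| := abs_sub_abs_le_abs_sub _ _
        rw [mul_div_assoc]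
        apply mul_le_mul_of_nonneg_left _ hN.le
        linarith
      have h4 : 0 < N * |(m : ℝ)| / 2 := by positivity
      have h5 := hB (N * ((m + n0 : ℤ) : ℝ) - τ)
      have h6 : (N * |(m : ℝ)| / 2) ^ 2 ≤ (N * ((m + n0 : ℤ) : ℝ) - τ) ^ 2 := by
        rw [← sq_abs (N * ((m + n0 : ℤ) : ℝ) - τ)]
        exact pow_le_pow_left₀ h4.le h1 2
      have h7 : (N * |(m : ℝ)| / 2) ^ 2 * ‖h (N * ((m + n0 : ℤ) : ℝ) - τ)‖ ≤ B :=
        (mul_le_mul_of_nonneg_right h6 (norm_nonneg _)).trans h5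
      have h8 : ‖h (N * ((m + n0 : ℤ) : ℝ) - τ)‖ ≤ B / (N * |(m : ℝ)| / 2) ^ 2 := by
        rw [le_div_iff₀ (by positivity)]
        linarith
      refine h8.trans_eq ?_
      rw [div_pow, mul_pow, sq_abs]
      have : (m : ℝ) ≠ 0 := by exact_mod_cast hm
      field_simp
      ring
  have hs1 : Summable (fun m : ℤ => (if m = 0 then M else 0 : ℝ)) :=
    summable_of_hasFiniteSupport ((finite_singleton (0 : ℤ)).subset (by
      intro m hm
      by_contra h'
      exact hm (if_neg h')))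
  have hs2 : Summable (fun m : ℤ => (4 * B / N ^ 2) * (1 / (m : ℝ) ^ 2)) :=
    ((Real.summable_one_div_int_pow (p := 2)).2 (by norm_num)).mul_left _
  have hGs : Summable G := hs1.add hs2
  have hFs : Summable F := Summable.of_nonneg_of_le (fun _ => norm_nonneg _) hFG hGs
  have hshift : F = (fun n : ℤ => ‖h (N * n - τ)‖) ∘ (Equiv.addRight n0) := by
    funext m
    simp [hF]
  refine ⟨?_, ?_⟩
  · rw [hshift] at hFs
    exact (Equiv.addRight n0).summable_iff.1 hFs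
  · have h1 : ∑' n : ℤ, ‖h (N * n - τ)‖ = ∑' m, F m := by
      rw [hshift]
      exact ((Equiv.addRight n0).tsum_eq _).symm
    rw [h1]
    refine (hFs.tsum_le_tsum hFG hGs).trans_eq ?_
    rw [hs1.tsum_add hs2, tsum_ite_eq, tsum_mul_left]

/-- Uniform bound for the almost periodic polynomials attached to the Riemann sums. -/
theorem riemann_bound (φ : 𝓢(ℝ, ℂ)) (M : ℝ) (hM : ∀ ξ, ‖𝓕 (φ : ℝ → ℂ) ξ‖ ≤ M) :
    ∃ B : ℝ, 0 ≤ B ∧ ∀ (N : ℕ), 1 ≤ N → ∀ (x t : ℝ) (K : Finset ℤ),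
      (∀ n : ℤ, n ∉ K → φ ((x + n) / N) = 0) →
      ‖∑ n ∈ K, φ ((x + n) / N) * Complex.exp (Complex.I * ((((x + n) / N : ℝ) : ℂ) * (t : ℂ)))‖ ≤
        N * (M + B / (N : ℝ) ^ 2) := by
  obtain ⟨B₁, hB₁pos, hB₁⟩ := (𝓕 φ : 𝓢(ℝ, ℂ)).decay 2 0
  obtain ⟨B₂, hB₂pos, hB₂⟩ := φ.decay 2 0
  set S : ℝ := ∑' m : ℤ, 1 / (m : ℝ) ^ 2 with hS
  have hS0 : 0 ≤ S := tsum_nonneg fun m => by positivity
  refine ⟨4 * B₁ * S, by positivity, ?_⟩
  intro N hN x t K hK
  have hN0 : (0 : ℝ) < N := by exact_mod_cast hN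
  set g : ℝ → ℂ := fun y : ℝ =>
    φ (y / N) * Complex.exp (Complex.I * (((y / N : ℝ) : ℂ) * (t : ℂ))) with hg
  have hgc : Continuous g := by
    simp only [hg]
    have := φ.continuous
    fun_prop
  have hgO : g =O[cocompact ℝ] (fun x : ℝ => |x| ^ (-(2 : ℝ))) := by
    apply Asymptotics.IsBigO.of_bound (B₂ * N ^ 2)
    have hev : ∀ᶠ y : ℝ in cocompact ℝ, y ≠ 0 := by
      have := (isCompact_singleton (x := (0 : ℝ))).compl_mem_cocompact
      filter_upwards [this] with y hy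
      exact hy
    filter_upwards [hev] with y hy
    have h1 := hB₂ (y / N)
    rw [norm_iteratedFDeriv_zero] at h1
    simp only [hg, norm_mul, norm_exp_I_mul, mul_one]
    have h2 : 0 < |y| := abs_pos.2 hy
    rw [Real.norm_of_nonneg (by positivity), Real.rpow_neg (abs_nonneg y)]
    have h3 : |y| ^ (2 : ℝ) = |y| ^ 2 := by norm_cast
    rw [h3]
    rw [← div_eq_mul_inv, le_div_iff₀ (by positivity)]
    have h4 : ‖y / (N : ℝ)‖ ^ 2 = |y| ^ 2 / (N : ℝ) ^ 2 := by
      rw [Real.norm_eq_abs, abs_div, abs_of_pos hN0, div_pow]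
    rw [h4, div_mul_eq_mul_div, div_le_iff₀ (by positivity)] at h1
    linarith
  have hfour : ∀ n : ℤ, 𝓕 g n = (N : ℂ) * 𝓕 (φ : ℝ → ℂ) (N * n - t / (2 * Real.pi)) := by
    intro n
    have := fourier_scaled (φ : ℝ → ℂ) N t n hN0
    rw [Complex.ofReal_natCast] at this
    exact this
  have hdec : ∀ ξ : ℝ, ξ ^ 2 * ‖𝓕 (φ : ℝ → ℂ) ξ‖ ≤ B₁ := by
    intro ξ
    have h1 := hB₁ ξ
    rw [norm_iteratedFDeriv_zero, Real.norm_eq_abs, sq_abs] at h1
    exact h1
  obtain ⟨hsum, hle⟩ := sum_bound (𝓕 (φ : ℝ → ℂ)) M B₁ hM hdec N (t / (2 * Real.pi)) hN0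
  have hsumF : Summable (fun n : ℤ => 𝓕 g n) := by
    apply Summable.of_norm
    simp_rw [hfour, norm_mul, Complex.norm_natCast]
    exact hsum.mul_left _
  have hP := Real.tsum_eq_tsum_fourier_of_rpow_decay_of_summable hgc (by norm_num : (1 : ℝ) < 2)
    hgO hsumF x
  have hfin : ∑' n : ℤ, g (x + n) = ∑ n ∈ K, g (x + n) := by
    apply tsum_eq_sum
    intro n hn
    simp only [hg]
    rw [hK n hn, zero_mul]
  have hgoal : ∑ n ∈ K, φ ((x + n) / N) *
      Complex.exp (Complex.I * ((((x + n) / N : ℝ) : ℂ) * (t : ℂ))) = ∑' n : ℤ, g (x + n) := by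
    rw [hfin]
  rw [hgoal, hP]
  have hnorm : ∀ n : ℤ, ‖𝓕 g n * fourier n (x : UnitAddCircle)‖ =
      N * ‖𝓕 (φ : ℝ → ℂ) (N * n - t / (2 * Real.pi))‖ := by
    intro n
    rw [norm_mul, hfour, norm_mul, Complex.norm_natCast]
    have : ‖(fourier n (x : UnitAddCircle) : ℂ)‖ = 1 := by
      rw [fourier_apply]
      exact Circle.norm_coe _
    rw [this, mul_one]
  have hs2 : Summable (fun n : ℤ => ‖𝓕 g n * fourier n (x : UnitAddCircle)‖) := by
    simp_rw [hnorm]
    exact hsum.mul_left _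
  refine (norm_tsum_le_tsum_norm hs2).trans ?_
  simp_rw [hnorm]
  rw [tsum_mul_left]
  apply mul_le_mul_of_nonneg_left _ hN0.le
  refine hle.trans_eq ?_
  rw [hS]
  ring

variable {A : EReal}

theorem pair_bound {f : Dom A → ℂ} {C : ℝ} (hC : 0 ≤ C)
    (hf : ∀ c : Dom A →₀ ℂ, ‖pairing f c‖ ≤ C * ⨆ t : ℝ, ‖apPoly c t‖)
    (hm : AEMeasurable f (leb A)) (φ : 𝓢(ℝ, ℂ)) (hφ : HasCompactSupport φ)
    (hφA : tsupport φ ⊆ Dom A) (M : ℝ) (hM : ∀ ξ, ‖𝓕 (φ : ℝ → ℂ) ξ‖ ≤ M) :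
    ‖∫ y, φ y * ext0 f y‖ ≤ C * M := by
  obtain ⟨B, hB0, hB⟩ := riemann_bound φ M hM
  obtain ⟨R, hR⟩ := hφ.isCompact.isBounded.subset_closedBall 0
  have hφ0 : ∀ y : ℝ, R < |y| → φ y = 0 := by
    intro y hy
    by_contra h
    have h1 := hR (subset_tsupport _ (Function.mem_support.2 h))
    rw [Metric.mem_closedBall, Real.dist_eq, sub_zero] at h1
    linarith
  have hφD : ∀ y : ℝ, y ∉ Dom A → φ y = 0 := by
    intro y hy
    by_contra h
    exact hy (hφA (subset_tsupport _ (Function.mem_support.2 h)))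
  have hFm := aemeasurable_ext0 hm
  have hFb := norm_ext0_le hC hf
  have hint : Integrable (fun y => φ y * ext0 f y) := by
    refine φ.integrable.mul_bdd (c := C) hFm.aestronglyMeasurable ?_
    exact ae_of_all _ hFb
  have key : ∀ N : ℕ, 1 ≤ N → ‖∫ y, φ y * ext0 f y‖ ≤ C * (M + B / (N : ℝ) ^ 2) := by
    intro N hN
    have hN0 : (0 : ℝ) < N := by exact_mod_cast hN
    set G : ℝ → ℂ := fun y => φ (y / N) * ext0 f (y / N) with hG
    have hGint : Integrable G := by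
      have := hint.comp_div hN0.ne'
      exact this
    have hGI : ∫ y, G y = (N : ℂ) * ∫ y, φ y * ext0 f y := by
      have := Measure.integral_comp_div (fun y => φ y * ext0 f y) (N : ℝ)
      rw [abs_of_pos hN0, Complex.real_smul] at this
      simpa using this
    set L : ℤ := ⌈(N : ℝ) * |R|⌉ + 1 with hL
    set K : Finset ℤ := Finset.Icc (-L) L with hK
    have hLR : (N : ℝ) * |R| + 1 ≤ L := by
      rw [hL]; push_cast
      have := Int.le_ceil ((N : ℝ) * |R|)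
      linarith
    have hKout : ∀ n : ℤ, n ∉ K → ∀ x ∈ Icc (0 : ℝ) 1, φ ((x + n) / N) = 0 := by
      intro n hn x hx
      apply hφ0
      rw [abs_div, abs_of_pos hN0, lt_div_iff₀ hN0]
      have h1 : (L : ℝ) < |(n : ℝ)| ∧ ((L : ℝ) + 1 ≤ |(n : ℝ)|) := by
        rw [hK, Finset.mem_Icc, not_and_or, not_le, not_le] at hn
        have hL0 : 0 ≤ ⌈(N : ℝ) * |R|⌉ := Int.ceil_nonneg (by positivity)
        have h2 : L + 1 ≤ |n| := by
          rcases hn with h | h
          · rw [abs_of_nonpos (by omega)]; omega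
          · rw [abs_of_nonneg (by omega)]; omega
        have h3 : ((L + 1 : ℤ) : ℝ) ≤ ((|n| : ℤ) : ℝ) := by exact_mod_cast h2
        push_cast at h3
        exact ⟨by linarith, h3⟩
      have h2 : |(n : ℝ)| - |x| ≤ |x + n| := by
        have := abs_sub_abs_le_abs_sub (n : ℝ) (-x)
        rw [abs_neg, sub_neg_eq_add, add_comm (n : ℝ)] at this
        exact this
      have h3 : |x| ≤ 1 := by rw [abs_of_nonneg hx.1]; exact hx.2
      have h4 : R ≤ |R| := le_abs_self R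
      nlinarith
    have hsum := hGint.hasSum_intervalIntegral_comp_add_int
    have hzero : ∀ n : ℤ, n ∉ K → ∫ x in (0 : ℝ)..1, G (x + n) = 0 := by
      intro n hn
      rw [intervalIntegral.integral_of_le zero_le_one]
      apply setIntegral_eq_zero_of_forall_eq_zero
      intro x hx
      simp only [hG]
      rw [hKout n hn x ⟨hx.1.le, hx.2⟩, zero_mul]
    have h1 : ∫ y, G y = ∑ n ∈ K, ∫ x in (0 : ℝ)..1, G (x + n) := by
      rw [← hsum.tsum_eq]
      exact tsum_eq_sum hzero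
    have h2 : ∑ n ∈ K, ∫ x in (0 : ℝ)..1, G (x + n) =
        ∫ x in (0 : ℝ)..1, ∑ n ∈ K, G (x + n) := by
      rw [intervalIntegral.integral_finsetSum]
      intro n _
      exact (hGint.comp_add_right (n : ℝ)).intervalIntegrable
    have h3 : ∀ x ∈ Icc (0 : ℝ) 1, ‖∑ n ∈ K, G (x + n)‖ ≤ C * (N * (M + B / (N : ℝ) ^ 2)) := by
      intro x hx
      set c : Dom A →₀ ℂ := ∑ n ∈ K, sg A ((x + n) / N) (φ ((x + n) / N)) with hc
      have hp : pairing f c = ∑ n ∈ K, G (x + n) := by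
        rw [hc, pairing_sum]
        exact Finset.sum_congr rfl fun n _ => pairing_sg f _ _
      rw [← hp]
      refine (hf c).trans (mul_le_mul_of_nonneg_left ?_ hC)
      refine ciSup_le fun t => ?_
      rw [hc, apPoly_sum]
      have h4 : ∑ n ∈ K, apPoly (sg A ((x + n) / N) (φ ((x + n) / N))) t =
          ∑ n ∈ K, φ ((x + n) / N) *
            Complex.exp (Complex.I * ((((x + n) / N : ℝ) : ℂ) * (t : ℂ))) :=
        Finset.sum_congr rfl fun n _ => apPoly_sg _ _ _ (fun h => hφD _ h)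
      rw [h4]
      exact hB N hN x t K (fun n hn => hKout n hn x hx)
    have h4 : ‖∫ x in (0 : ℝ)..1, ∑ n ∈ K, G (x + n)‖ ≤ C * (N * (M + B / (N : ℝ) ^ 2)) := by
      have := intervalIntegral.norm_integral_le_of_norm_le_const
        (a := (0 : ℝ)) (b := 1) (f := fun x => ∑ n ∈ K, G (x + n))
        (C := C * (N * (M + B / (N : ℝ) ^ 2))) (by
          intro x hx
          rw [uIoc_of_le zero_le_one] at hx
          exact h3 x ⟨hx.1.le, hx.2⟩)
      simpa using this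
    rw [← h2, ← h1, hGI, norm_mul, Complex.norm_natCast] at h4
    have h5 : C * (N * (M + B / (N : ℝ) ^ 2)) = N * (C * (M + B / (N : ℝ) ^ 2)) := by ring
    rw [h5] at h4
    exact le_of_mul_le_mul_left h4 hN0
  have hlim : Tendsto (fun N : ℕ => C * (M + B / (N : ℝ) ^ 2)) atTop (𝓝 (C * (M + 0))) := by
    apply Tendsto.const_mul
    apply Tendsto.const_add
    exact tendsto_const_nhds.div_atTop
      ((tendsto_pow_atTop (two_ne_zero)).comp tendsto_natCast_atTop_atTop)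
  rw [add_zero] at hlim
  apply ge_of_tendsto hlim
  filter_upwards [eventually_ge_atTop 1] with N hN
  exact key N hN

end Pool.Agent.H731R2
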