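import Mathlib

/-!
# Complex Riesz representation on compact Hausdorff spaces, in an `L²` form
-/

set_option autoImplicit false
set_option linter.unusedSectionVars false

open MeasureTheory Filter Topology Set
open scoped NNReal ENNReal CompactlySupported InnerProductSpace

namespace Pool.Agent.H731R2

/-- Hahn-Banach through a linear map. -/
theorem exists_functional {E X : Type*} [AddCommGroup E] [Module ℂ E] [NormedAddCommGroup X]
    [NormedSpace ℂ X] (T : E →ₗ[ℂ] X) (l : E →ₗ[ℂ] ℂ) (C : ℝ) (hC : 0 ≤ C)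
    (h : ∀ e, ‖l e‖ ≤ C * ‖T e‖) :
    ∃ Ψ : StrongDual ℂ X, ‖Ψ‖ ≤ C ∧ ∀ e, Ψ (T e) = l e := by
  have hsurj : Function.Surjective T.rangeRestrict := T.surjective_rangeRestrict
  obtain ⟨s, hs⟩ := T.rangeRestrict.exists_rightInverse_of_surjective
    (LinearMap.range_eq_top.2 hsurj)
  have hs' : ∀ y : LinearMap.range T, T (s y) = y := by
    intro y
    have := congrArg (fun g => ((g y : LinearMap.range T) : X)) hs
    simpa using this
  let l0 : LinearMap.range T →ₗ[ℂ] ℂ := l ∘ₗ s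
  have hl0 : ∀ y : LinearMap.range T, ‖l0 y‖ ≤ C * ‖y‖ := by
    intro y
    have := h (s y)
    rw [hs'] at this
    exact this
  let f : StrongDual ℂ (LinearMap.range T) := l0.mkContinuous C hl0
  obtain ⟨Ψ, hΨ, hΨn⟩ := exists_extension_norm_eq (LinearMap.range T) f
  refine ⟨Ψ, ?_, ?_⟩
  · rw [hΨn]
    exact LinearMap.mkContinuous_norm_le _ hC _
  · intro e
    have h1 := hΨ ⟨T e, LinearMap.mem_range_self T e⟩
    have h2 : f ⟨T e, LinearMap.mem_range_self T e⟩ = l e := by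
      change l (s ⟨T e, LinearMap.mem_range_self T e⟩) = l e
      have h3 := h (s ⟨T e, LinearMap.mem_range_self T e⟩ - e)
      rw [map_sub, map_sub, hs'] at h3
      simp only [sub_self, norm_zero, mul_zero] at h3
      exact sub_eq_zero.1 (norm_le_zero_iff.1 h3)
    rw [← h2, ← h1]

section Riesz

variable {X : Type*} [TopologicalSpace X] [CompactSpace X] [T2Space X]

/-- The total variation functional on nonnegative continuous functions. -/
noncomputable def tv (Φ : StrongDual ℂ C(X, ℂ)) (g : X → ℝ≥0) : ℝ :=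
  sSup {r : ℝ | ∃ h : C(X, ℂ), (∀ x, ‖h x‖ ≤ g x) ∧ r = ‖Φ h‖}

theorem tv_bddAbove (Φ : StrongDual ℂ C(X, ℂ)) (g : C(X, ℝ≥0)) :
    BddAbove {r : ℝ | ∃ h : C(X, ℂ), (∀ x, ‖h x‖ ≤ g x) ∧ r = ‖Φ h‖} := by
  obtain ⟨M, hM⟩ : ∃ M : ℝ, 0 ≤ M ∧ ∀ x, (g x : ℝ) ≤ M := by
    have hc : Continuous (fun x => (g x : ℝ)) := by fun_prop
    obtain ⟨M, hM⟩ := (isCompact_range hc).bddAbove
    exact ⟨max M 0, le_max_right _ _, fun x => (hM ⟨x, rfl⟩).trans (le_max_left _ _)⟩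
  refine ⟨‖Φ‖ * M, ?_⟩
  rintro r ⟨h, hh, rfl⟩
  refine (Φ.le_opNorm h).trans (mul_le_mul_of_nonneg_left ?_ (norm_nonneg _))
  rw [ContinuousMap.norm_le _ hM.1]
  exact fun x => (hh x).trans (hM.2 x)

theorem tv_nonempty (Φ : StrongDual ℂ C(X, ℂ)) (g : X → ℝ≥0) :
    {r : ℝ | ∃ h : C(X, ℂ), (∀ x, ‖h x‖ ≤ g x) ∧ r = ‖Φ h‖}.Nonempty :=
  ⟨‖Φ 0‖, 0, by simp, rfl⟩

theorem le_tv (Φ : StrongDual ℂ C(X, ℂ)) (g : C(X, ℝ≥0)) (h : C(X, ℂ))
    (hh : ∀ x, ‖h x‖ ≤ g x) : ‖Φ h‖ ≤ tv Φ g :=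
  le_csSup (tv_bddAbove Φ g) ⟨h, hh, rfl⟩

theorem tv_nonneg (Φ : StrongDual ℂ C(X, ℂ)) (g : C(X, ℝ≥0)) : 0 ≤ tv Φ g := by
  have := le_tv Φ g 0 (by simp)
  simpa using this

theorem tv_le (Φ : StrongDual ℂ C(X, ℂ)) (g : X → ℝ≥0) (M : ℝ)
    (h : ∀ h : C(X, ℂ), (∀ x, ‖h x‖ ≤ g x) → ‖Φ h‖ ≤ M) : tv Φ g ≤ M := by
  refine csSup_le (tv_nonempty Φ g) ?_
  rintro r ⟨k, hk, rfl⟩
  exact h k hk

theorem exists_near_tv (Φ : StrongDual ℂ C(X, ℂ)) (g : C(X, ℝ≥0)) (ε : ℝ) (hε : 0 < ε) :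
    ∃ h : C(X, ℂ), (∀ x, ‖h x‖ ≤ g x) ∧ tv Φ g - ε < (Φ h).re ∧ (Φ h).im = 0 := by
  obtain ⟨r, ⟨h, hh, rfl⟩, hr⟩ := exists_lt_of_lt_csSup (tv_nonempty Φ g)
    (show tv Φ g - ε < sSup _ by unfold tv; linarith)
  by_cases h0 : Φ h = 0
  · refine ⟨h, hh, ?_, ?_⟩
    · rw [h0] at hr ⊢
      simpa using hr
    · rw [h0]; rfl
  · set c : ℂ := (starRingEnd ℂ) (Φ h) / ‖Φ h‖ with hc
    have hn : (‖Φ h‖ : ℂ) ≠ 0 := by
      exact_mod_cast (norm_ne_zero_iff.2 h0)
    have hcn : ‖c‖ = 1 := by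
      rw [hc, norm_div, RCLike.norm_conj, Complex.norm_real, norm_norm]
      exact div_self (norm_ne_zero_iff.2 h0)
    have hval : Φ (c • h) = (‖Φ h‖ : ℂ) := by
      rw [map_smul, smul_eq_mul, hc, div_mul_eq_mul_div, Complex.conj_mul', sq]
      field_simp
    refine ⟨c • h, ?_, ?_, ?_⟩
    · intro x
      simp only [ContinuousMap.coe_smul, Pi.smul_apply, smul_eq_mul, norm_mul, hcn, one_mul]
      exact hh x
    · rw [hval, Complex.ofReal_re]
      exact hr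
    · rw [hval, Complex.ofReal_im]

theorem tv_add (Φ : StrongDual ℂ C(X, ℂ)) (g₁ g₂ : C(X, ℝ≥0)) :
    tv Φ (g₁ + g₂ : C(X, ℝ≥0)) = tv Φ g₁ + tv Φ g₂ := by
  apply le_antisymm
  · apply tv_le
    intro h hh
    -- split `h`
    have key : ∀ g : C(X, ℝ≥0), (∀ x, g x ≤ (g₁ + g₂) x) →
        Continuous (fun x => h x * (((g x : ℝ) / ((g₁ x : ℝ) + (g₂ x : ℝ)) : ℝ) : ℂ)) := by
      intro g hg
      rw [continuous_iff_continuousAt]
      intro x
      by_cases hx : (g₁ x : ℝ) + (g₂ x : ℝ) = 0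
      · have hx0 : h x = 0 := by
          have := hh x
          rw [ContinuousMap.add_apply, NNReal.coe_add, hx] at this
          exact norm_le_zero_iff.1 this
        have hval : h x * (((g x : ℝ) / ((g₁ x : ℝ) + (g₂ x : ℝ)) : ℝ) : ℂ) = 0 := by
          rw [hx0, zero_mul]
        rw [ContinuousAt, hval]
        have hh0 : Tendsto (fun y => ‖h y‖) (𝓝 x) (𝓝 0) := by
          have : Tendsto (fun y => ‖h y‖) (𝓝 x) (𝓝 ‖h x‖) := (by fun_prop : Continuous fun y => ‖h y‖).continuousAt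
          rwa [hx0, norm_zero] at this
        refine squeeze_zero_norm (fun y => ?_) hh0
        rw [norm_mul, Complex.norm_real, Real.norm_eq_abs]
        refine mul_le_of_le_one_right (norm_nonneg _) ?_
        rw [abs_of_nonneg (by positivity)]
        refine div_le_one_of_le₀ ?_ (by positivity)
        have := hg y
        rw [ContinuousMap.add_apply] at this
        exact_mod_cast this
      · refine ContinuousAt.mul h.continuous.continuousAt ?_
        refine Complex.continuous_ofReal.continuousAt.comp ?_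
        refine ContinuousAt.div ?_ ?_ hx
        · exact (by fun_prop : Continuous fun x => (g x : ℝ)).continuousAt
        · exact (by fun_prop : Continuous fun x => (g₁ x : ℝ) + (g₂ x : ℝ)).continuousAt
    set h₁ : C(X, ℂ) := ⟨_, key g₁ (fun x => by simp)⟩ with hh₁
    set h₂ : C(X, ℂ) := ⟨_, key g₂ (fun x => by simp)⟩ with hh₂
    have hsum : h = h₁ + h₂ := by
      ext x
      simp only [hh₁, hh₂, ContinuousMap.add_apply, ContinuousMap.coe_mk]
      by_cases hx : (g₁ x : ℝ) + (g₂ x : ℝ) = 0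
      · have hx0 : h x = 0 := by
          have := hh x
          rw [ContinuousMap.add_apply, NNReal.coe_add, hx] at this
          exact norm_le_zero_iff.1 this
        simp [hx0]
      · rw [← mul_add, ← Complex.ofReal_add, ← add_div, div_self hx]
        simp
    have hb : ∀ (g : C(X, ℝ≥0)) (x : X), (g x ≤ (g₁ + g₂) x) →
        ‖h x * (((g x : ℝ) / ((g₁ x : ℝ) + (g₂ x : ℝ)) : ℝ) : ℂ)‖ ≤ g x := by
      intro g x hg
      rw [norm_mul, Complex.norm_real, Real.norm_eq_abs, abs_of_nonneg (by positivity)]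
      by_cases hx : (g₁ x : ℝ) + (g₂ x : ℝ) = 0
      · rw [hx]; simp
      · have h3 := hh x
        rw [ContinuousMap.add_apply, NNReal.coe_add] at h3
        calc ‖h x‖ * ((g x : ℝ) / ((g₁ x : ℝ) + (g₂ x : ℝ)))
            ≤ ((g₁ x : ℝ) + (g₂ x : ℝ)) * ((g x : ℝ) / ((g₁ x : ℝ) + (g₂ x : ℝ))) :=
              mul_le_mul_of_nonneg_right h3 (by positivity)
          _ = g x := by field_simp
    rw [hsum, map_add]
    refine (norm_add_le _ _).trans (add_le_add ?_ ?_)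
    · exact le_tv Φ g₁ h₁ (fun x => hb g₁ x (by simp))
    · exact le_tv Φ g₂ h₂ (fun x => hb g₂ x (by simp))
  · apply le_of_forall_pos_le_add
    intro ε hε
    obtain ⟨h₁, h1a, h1b, h1c⟩ := exists_near_tv Φ g₁ (ε / 2) (half_pos hε)
    obtain ⟨h₂, h2a, h2b, h2c⟩ := exists_near_tv Φ g₂ (ε / 2) (half_pos hε)
    have := le_tv Φ (g₁ + g₂) (h₁ + h₂) (by
      intro x
      rw [ContinuousMap.add_apply, ContinuousMap.add_apply, NNReal.coe_add]
      exact (norm_add_le _ _).trans (add_le_add (h1a x) (h2a x)))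
    have h4 := (Complex.re_le_norm (Φ (h₁ + h₂))).trans this
    rw [map_add, Complex.add_re] at h4
    linarith

theorem tv_smul (Φ : StrongDual ℂ C(X, ℂ)) (c : ℝ≥0) (g : C(X, ℝ≥0)) :
    tv Φ (c • g : C(X, ℝ≥0)) = c * tv Φ g := by
  rcases eq_or_ne c 0 with rfl | hc
  · simp only [zero_smul, NNReal.coe_zero, zero_mul]
    refine le_antisymm (tv_le _ _ _ ?_) (tv_nonneg _ _)
    intro h hh
    have : h = 0 := by
      ext x
      have := hh x
      simpa using this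
    simp [this]
  · have hle : ∀ (c : ℝ≥0) (hc : c ≠ 0) (g : C(X, ℝ≥0)),
        tv Φ (c • g : C(X, ℝ≥0)) ≤ c * tv Φ g := by
      intro c hc g
      have hc' : (0 : ℝ) < c := by positivity
      apply tv_le
      intro h hh
      have h1 := le_tv Φ g (((c : ℝ)⁻¹ : ℂ) • h) (by
        intro x
        have := hh x
        simp only [ContinuousMap.coe_smul, Pi.smul_apply, smul_eq_mul, norm_mul, NNReal.coe_mul] at this ⊢
        rw [norm_inv, Complex.norm_real, Real.norm_of_nonneg hc'.le]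
        rw [inv_mul_le_iff₀ hc']
        exact this)
      rw [map_smul, norm_smul, norm_inv, Complex.norm_real, Real.norm_of_nonneg hc'.le,
        inv_mul_le_iff₀ hc'] at h1
      exact h1
    apply le_antisymm (hle c hc g)
    have h2 := hle c⁻¹ (inv_ne_zero hc) (c • g)
    rw [smul_smul, inv_mul_cancel₀ hc, one_smul, NNReal.coe_inv] at h2
    have hc' : (0 : ℝ) < c := by positivity
    rwa [← div_eq_inv_mul, le_div_iff₀ hc', mul_comm] at h2

variable [MeasurableSpace X] [BorelSpace X]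

/-- A bounded functional on `C(X, ℂ)` is dominated by a finite regular measure. -/
theorem exists_dominating_measure (Φ : StrongDual ℂ C(X, ℂ)) :
    ∃ μ : Measure X, IsFiniteMeasure μ ∧ μ.Regular ∧
      ∀ h : C(X, ℂ), ‖Φ h‖ ≤ ∫ x, ‖h x‖ ∂μ := by
  let Λ : C_c(X, ℝ≥0) →ₗ[ℝ≥0] ℝ≥0 :=
    { toFun := fun g => ⟨tv Φ (g : X → ℝ≥0), tv_nonneg Φ ⟨g, g.continuous⟩⟩
      map_add' := by
        intro g₁ g₂
        apply NNReal.eq
        exact tv_add Φ ⟨g₁, g₁.continuous⟩ ⟨g₂, g₂.continuous⟩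
      map_smul' := by
        intro c g
        apply NNReal.eq
        exact tv_smul Φ c ⟨g, g.continuous⟩ }
  have hfin : IsFiniteMeasure (NNRealRMK.rieszMeasure Λ) := by
    have : (NNRealRMK.rieszMeasure Λ).Regular := inferInstance
    exact ⟨isCompact_univ.measure_lt_top⟩
  refine ⟨NNRealRMK.rieszMeasure Λ, hfin, inferInstance, ?_⟩
  intro h
  let g : C_c(X, ℝ≥0) := ⟨⟨fun x => ‖h x‖₊, by fun_prop⟩, HasCompactSupport.of_compactSpace _⟩
  have h1 := NNRealRMK.integral_rieszMeasure Λ g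
  have h2 : ‖Φ h‖ ≤ (Λ g : ℝ) := le_tv Φ ⟨g, g.continuous⟩ h (fun x => le_rfl)
  refine h2.trans ?_
  rw [← h1]
  rfl

/-- Riesz representation with an `L²` density. -/
theorem exists_density (Φ : StrongDual ℂ C(X, ℂ)) :
    ∃ μ : Measure X, IsFiniteMeasure μ ∧ μ.Regular ∧
      ∃ u : Lp ℂ 2 μ, ∀ h : C(X, ℂ), Φ h = ∫ x, h x * u x ∂μ := by
  obtain ⟨μ, hμ, hr, hdom⟩ := exists_dominating_measure Φ
  refine ⟨μ, hμ, hr, ?_⟩
  -- the embedding of `C(X)` in `L²`
  let T : C(X, ℂ) →ₗ[ℂ] Lp ℂ 2 μ := (ContinuousMap.toLp (E := ℂ) 2 μ ℂ).toLinearMap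
  have hTae : ∀ h : C(X, ℂ), (T h : X → ℂ) =ᵐ[μ] h := fun h => ContinuousMap.coeFn_toLp μ h
  obtain ⟨Ψ, -, hΨ⟩ := exists_functional T (Φ : C(X, ℂ) →ₗ[ℂ] ℂ) (Real.sqrt (μ.real univ))
    (Real.sqrt_nonneg _) (by
      intro h
      refine (hdom h).trans ?_
      have hcs := norm_inner_le_norm (𝕜 := ℂ) (T ⟨fun x => ((1 : ℝ) : ℂ), by fun_prop⟩)
        (T ⟨fun x => ((‖h x‖ : ℝ) : ℂ), by fun_prop⟩)
      have h1 : ⟪(T ⟨fun x => ((1 : ℝ) : ℂ), by fun_prop⟩),
          (T ⟨fun x => ((‖h x‖ : ℝ) : ℂ), by fun_prop⟩)⟫_ℂ = ((∫ x, ‖h x‖ ∂μ : ℝ) : ℂ) := by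
        rw [MeasureTheory.L2.inner_def, ← integral_complex_ofReal]
        apply integral_congr_ae
        filter_upwards [hTae ⟨fun x => ((1 : ℝ) : ℂ), by fun_prop⟩,
          hTae ⟨fun x => ((‖h x‖ : ℝ) : ℂ), by fun_prop⟩] with x hx1 hx2
        rw [hx1, hx2]
        simp
      have hnorm : ∀ k : C(X, ℂ), ‖T k‖ = Real.sqrt (∫ x, ‖k x‖ ^ 2 ∂μ) := by
        intro k
        have h2 : (‖T k‖ ^ 2 : ℝ) = ∫ x, ‖k x‖ ^ 2 ∂μ := by
          have h3 : ((‖T k‖ ^ 2 : ℝ) : ℂ) = ((∫ x, ‖k x‖ ^ 2 ∂μ : ℝ) : ℂ) := by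
            have h4 := inner_self_eq_norm_sq_to_K (𝕜 := ℂ) (T k)
            push_cast
            rw [MeasureTheory.L2.inner_def] at h4
            have h5 : (∫ a, ⟪(T k : X → ℂ) a, (T k : X → ℂ) a⟫_ℂ ∂μ) =
                ((∫ x, ‖k x‖ ^ 2 ∂μ : ℝ) : ℂ) := by
              rw [← integral_complex_ofReal]
              apply integral_congr_ae
              filter_upwards [hTae k] with x hx
              rw [hx, inner_self_eq_norm_sq_to_K (𝕜 := ℂ) (k x)]
              push_cast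
              rfl
            rw [h5] at h4
            rw [h4]
            rfl
          exact_mod_cast h3
        rw [← h2, Real.sqrt_sq (norm_nonneg _)]
      rw [h1, Complex.norm_real, Real.norm_of_nonneg (integral_nonneg fun _ => norm_nonneg _),
        hnorm, hnorm] at hcs
      refine hcs.trans_eq ?_
      rw [hnorm]
      congr 2
      · simp
      · simp)
  refine ⟨star ((InnerProductSpace.toDual ℂ (Lp ℂ 2 μ)).symm Ψ), ?_⟩
  intro h
  have h1 : Ψ (T h) = Φ h := hΨ h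
  rw [← h1, ← InnerProductSpace.toDual_symm_apply (𝕜 := ℂ), MeasureTheory.L2.inner_def]
  apply integral_congr_ae
  filter_upwards [hTae h, Lp.coeFn_star ((InnerProductSpace.toDual ℂ (Lp ℂ 2 μ)).symm Ψ)]
    with x hx1 hx2
  rw [hx1, hx2]
  simp

end Riesz

end Pool.Agent.H731R2
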