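import Mathlib
import Pool.Agent.H731R2.Riemann
import Pool.Agent.H731R2.Riesz

/-!
# Measurable elements of `R_A` are almost everywhere equal to continuous elements
-/

set_option autoImplicit false
set_option linter.unusedSectionVars false

open MeasureTheory Filter Topology Set
open scoped FourierTransform SchwartzMap ZeroAtInfty

namespace Pool.Agent.H731R2

variable {A : EReal}

section Gen

variable {X : Type*} [MeasurableSpace X] {ν : Measure X} {e : Dom A → X → ℂ} {w : X → ℂ}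

theorem integrable_char (hem : ∀ l, AEStronglyMeasurable (e l) ν) (heb : ∀ l x, ‖e l x‖ ≤ 1)
    (hw : Integrable w ν) (l : Dom A) : Integrable (fun x => e l x * w x) ν :=
  hw.bdd_mul (c := 1) (hem l) (ae_of_all _ (heb l))

theorem pairing_integral (hem : ∀ l, AEStronglyMeasurable (e l) ν) (heb : ∀ l x, ‖e l x‖ ≤ 1)
    (hw : Integrable w ν) (c : Dom A →₀ ℂ) :
    pairing (fun l => ∫ x, e l x * w x ∂ν) c = ∫ x, (c.sum fun l a => a * e l x) * w x ∂ν := by
  unfold pairing Finsupp.sum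
  simp_rw [Finset.sum_mul]
  rw [integral_finsetSum]
  · refine Finset.sum_congr rfl fun l _ => ?_
    simp_rw [mul_assoc]
    rw [integral_const_mul]
  · intro l _
    simp_rw [mul_assoc]
    exact (integrable_char hem heb hw l).const_mul _

theorem memR_of_integral (hem : ∀ l, AEStronglyMeasurable (e l) ν) (heb : ∀ l x, ‖e l x‖ ≤ 1)
    (hw : Integrable w ν)
    (h : ∀ (c : Dom A →₀ ℂ) (x : X), ‖c.sum fun l a => a * e l x‖ ≤ ⨆ t : ℝ, ‖apPoly c t‖) :
    MemR (fun l => ∫ x, e l x * w x ∂ν) := by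
  refine ⟨∫ x, ‖w x‖ ∂ν, fun c => ?_⟩
  rw [pairing_integral hem heb hw, mul_comm, ← integral_const_mul]
  refine norm_integral_le_of_norm_le (hw.norm.const_mul _) (ae_of_all _ fun x => ?_)
  rw [norm_mul]
  exact mul_le_mul_of_nonneg_right (h c x) (norm_nonneg _)

theorem memP_of_integral (hem : ∀ l, AEStronglyMeasurable (e l) ν) (heb : ∀ l x, ‖e l x‖ ≤ 1)
    {v : X → ℝ} (hv : Integrable v ν) (hv0 : ∀ x, 0 ≤ v x)
    (h : ∀ (c : Dom A →₀ ℂ) (x : X), ‖c.sum fun l a => a * e l x‖ ≤ ⨆ t : ℝ, ‖apPoly c t‖)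
    (hp : ∀ (c : Dom A →₀ ℂ), (∀ t : ℝ, (apPoly c t).im = 0 ∧ 0 ≤ (apPoly c t).re) →
      ∀ x : X, (c.sum fun l a => a * e l x).im = 0 ∧ 0 ≤ (c.sum fun l a => a * e l x).re) :
    MemP (fun l => ∫ x, e l x * (v x : ℂ) ∂ν) := by
  have hw : Integrable (fun x => (v x : ℂ)) ν := hv.ofReal
  refine ⟨memR_of_integral hem heb hw h, fun c hc => ?_⟩
  rw [pairing_integral hem heb hw]
  have h1 : (fun x => (c.sum fun l a => a * e l x) * (v x : ℂ)) =
      fun x => (((c.sum fun l a => a * e l x).re * v x : ℝ) : ℂ) := by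
    funext x
    apply Complex.ext
    · simp
    · have := (hp c hc x).1
      simp [this]
  rw [h1, integral_complex_ofReal]
  refine ⟨Complex.ofReal_im _, ?_⟩
  rw [Complex.ofReal_re]
  exact integral_nonneg fun x => mul_nonneg (hp c hc x).2 (hv0 x)

end Gen

/-- The exponential factor. -/
noncomputable def ex (y s : ℝ) : ℂ := Complex.exp (Complex.I * ((y : ℂ) * ((-2 * Real.pi * s : ℝ) : ℂ)))

theorem norm_ex (y s : ℝ) : ‖ex y s‖ = 1 := norm_exp_I_mul _ _

theorem continuous_ex : Continuous (fun p : ℝ × ℝ => ex p.1 p.2) := by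
  unfold ex
  fun_prop

theorem ex_sum (c : Dom A →₀ ℂ) (s : ℝ) :
    (c.sum fun l a => a * ex l s) = apPoly c (-2 * Real.pi * s) := rfl

theorem memR_ex {ν : Measure ℝ} {w : ℝ → ℂ} (hw : Integrable w ν) :
    MemR (fun l : Dom A => ∫ s, ex l s * w s ∂ν) := by
  refine memR_of_integral (e := fun (l : Dom A) s => ex l s) ?_ ?_ hw ?_
  · intro l
    exact (continuous_ex.comp (by fun_prop : Continuous fun s : ℝ => ((l : ℝ), s))).aestronglyMeasurable
  · intro l x
    exact (norm_ex _ _).le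
  · intro c x
    rw [ex_sum]
    exact le_sup c _

theorem memP_ex {ν : Measure ℝ} {v : ℝ → ℝ} (hv : Integrable v ν) (hv0 : ∀ x, 0 ≤ v x) :
    MemP (fun l : Dom A => ∫ s, ex l s * (v s : ℂ) ∂ν) := by
  refine memP_of_integral (e := fun (l : Dom A) s => ex l s) ?_ ?_ hv hv0 ?_ ?_
  · intro l
    exact (continuous_ex.comp (by fun_prop : Continuous fun s : ℝ => ((l : ℝ), s))).aestronglyMeasurable
  · intro l x
    exact (norm_ex _ _).le
  · intro c x
    rw [ex_sum]
    exact le_sup c _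
  · intro c hc x
    rw [ex_sum]
    exact hc _

theorem continuous_integral_ex {ν : Measure ℝ} {w : ℝ → ℂ} (hw : Integrable w ν) :
    Continuous (fun y : ℝ => ∫ s, ex y s * w s ∂ν) := by
  refine continuous_of_dominated (bound := fun s => ‖w s‖) ?_ ?_ hw.norm ?_
  · intro y
    exact ((continuous_ex.comp (by fun_prop : Continuous fun s : ℝ => (y, s))).aestronglyMeasurable).mul
      hw.aestronglyMeasurable
  · intro y
    exact ae_of_all _ fun s => by rw [norm_mul, norm_ex, one_mul]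
  · exact ae_of_all _ fun s => by
      have : Continuous fun y : ℝ => ex y s :=
        continuous_ex.comp (by fun_prop : Continuous fun y : ℝ => (y, s))
      exact this.mul continuous_const

/-- Schwartz functions as continuous functions on the one point compactification. -/
noncomputable def opExt : 𝓢(ℝ, ℂ) →ₗ[ℂ] C(OnePoint ℝ, ℂ) where
  toFun h := OnePoint.continuousMapMk ⟨h, h.continuous⟩ 0 (by
    have := h.toZeroAtInfty.zero_at_infty'
    rw [coclosedCompact_eq_cocompact]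
    exact this)
  map_add' h k := by
    ext z
    induction z using OnePoint.rec with
    | infty => simp [OnePoint.continuousMapMk]
    | coe x => simp [OnePoint.continuousMapMk]
  map_smul' c h := by
    ext z
    induction z using OnePoint.rec with
    | infty => simp [OnePoint.continuousMapMk]
    | coe x => simp [OnePoint.continuousMapMk]

theorem opExt_coe (h : 𝓢(ℝ, ℂ)) (x : ℝ) : opExt h (x : OnePoint ℝ) = h x := rfl

theorem opExt_infty (h : 𝓢(ℝ, ℂ)) : opExt h OnePoint.infty = 0 := rfl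

/-- The test functions supported in `(-A, A)`. -/
def testSub (A : EReal) : Submodule ℂ 𝓢(ℝ, ℂ) where
  carrier := {φ | HasCompactSupport (φ : ℝ → ℂ) ∧ tsupport (φ : ℝ → ℂ) ⊆ Dom A}
  add_mem' := by
    rintro φ ψ ⟨h1, h2⟩ ⟨h3, h4⟩
    refine ⟨?_, ?_⟩
    · have := h1.add h3
      exact this
    · have : tsupport ((φ + ψ : 𝓢(ℝ, ℂ)) : ℝ → ℂ) ⊆ tsupport (φ : ℝ → ℂ) ∪ tsupport (ψ : ℝ → ℂ) :=
        tsupport_add _ _
      exact this.trans (union_subset h2 h4)
  zero_mem' := by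
    have h0 : ((0 : 𝓢(ℝ, ℂ)) : ℝ → ℂ) = 0 := rfl
    refine ⟨?_, ?_⟩
    · rw [h0]; exact HasCompactSupport.zero
    · rw [h0, tsupport_zero]; exact empty_subset _
  smul_mem' := by
    rintro c φ ⟨h1, h2⟩
    have h0 : ((c • φ : 𝓢(ℝ, ℂ)) : ℝ → ℂ) = fun x => c * φ x := rfl
    have h3 : tsupport ((c • φ : 𝓢(ℝ, ℂ)) : ℝ → ℂ) ⊆ tsupport (φ : ℝ → ℂ) := by
      rw [h0]
      exact closure_mono (fun x hx => by
        rw [Function.mem_support] at hx ⊢
        exact right_ne_zero_of_mul hx)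
    exact ⟨h1.of_isClosed_subset (isClosed_tsupport _) h3, h3.trans h2⟩

theorem exists_rep {f : Dom A → ℂ} (hf : MemR f) (hm : AEMeasurable f (leb A)) :
    ∃ (ν : Measure ℝ) (w : ℝ → ℂ), IsFiniteMeasure ν ∧ Integrable w ν ∧
      ∀ᵐ y : Dom A ∂(leb A), f y = ∫ s, ex y s * w s ∂ν := by
  obtain ⟨C, hC, hfC⟩ := hf.exists_nonneg
  have hFm := aemeasurable_ext0 hm
  have hFb := norm_ext0_le hC hfC
  have hint : ∀ φ : 𝓢(ℝ, ℂ), Integrable (fun y => φ y * ext0 f y) := fun φ =>
    φ.integrable.mul_bdd (c := C) hFm.aestronglyMeasurable (ae_of_all _ hFb)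
  let _ : MeasurableSpace (OnePoint ℝ) := borel _
  have _ : BorelSpace (OnePoint ℝ) := ⟨rfl⟩
  -- the two linear maps
  let T : testSub A →ₗ[ℂ] C(OnePoint ℝ, ℂ) :=
    opExt ∘ₗ (SchwartzMap.fourierTransformCLM ℂ : 𝓢(ℝ, ℂ) →L[ℂ] 𝓢(ℝ, ℂ)).toLinearMap ∘ₗ (testSub A).subtype
  have hT : ∀ (φ : testSub A) (ξ : ℝ), T φ (ξ : OnePoint ℝ) = 𝓕 ((φ : 𝓢(ℝ, ℂ)) : ℝ → ℂ) ξ :=
    fun φ ξ => rfl
  have hT' : ∀ (φ : testSub A), T φ OnePoint.infty = 0 := fun φ => rfl
  let l : testSub A →ₗ[ℂ] ℂ :=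
    { toFun := fun φ => ∫ y, (φ : 𝓢(ℝ, ℂ)) y * ext0 f y
      map_add' := by
        intro φ ψ
        rw [← integral_add (hint _) (hint _)]
        congr 1
        funext y
        have : ((φ + ψ : testSub A) : 𝓢(ℝ, ℂ)) y = (φ : 𝓢(ℝ, ℂ)) y + (ψ : 𝓢(ℝ, ℂ)) y := rfl
        rw [this, add_mul]
      map_smul' := by
        intro c φ
        simp only [RingHom.id_apply, smul_eq_mul]
        rw [← integral_const_mul]
        congr 1
        funext y
        have : ((c • φ : testSub A) : 𝓢(ℝ, ℂ)) y = c * (φ : 𝓢(ℝ, ℂ)) y := rfl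
        rw [this, mul_assoc] }
  obtain ⟨Ψ, -, hΨ⟩ := exists_functional T l C hC (by
    intro φ
    exact pair_bound hC hfC hm φ φ.2.1 φ.2.2 ‖T φ‖ (fun ξ => by
      rw [← hT φ ξ]
      exact (T φ).norm_coe_le_norm _))
  obtain ⟨μ, hμ, -, u, hu⟩ := exists_density Ψ
  have hemb : MeasurableEmbedding ((↑) : ℝ → OnePoint ℝ) :=
    OnePoint.isOpenEmbedding_coe.measurableEmbedding
  have hui : Integrable (u : OnePoint ℝ → ℂ) μ := (Lp.memLp u).integrable (by norm_num)
  set ν : Measure ℝ := μ.comap ((↑) : ℝ → OnePoint ℝ) with hν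
  have hνfin : IsFiniteMeasure ν := by
    constructor
    rw [hν, hemb.comap_apply]
    exact measure_lt_top _ _
  have hνmap : ν.map ((↑) : ℝ → OnePoint ℝ) = μ.restrict (range ((↑) : ℝ → OnePoint ℝ)) :=
    hemb.map_comap μ
  set w : ℝ → ℂ := fun s => (u : OnePoint ℝ → ℂ) (s : OnePoint ℝ) with hw
  have hwi : Integrable w ν := by
    have h1 : Integrable (u : OnePoint ℝ → ℂ) (ν.map ((↑) : ℝ → OnePoint ℝ)) := by
      rw [hνmap]; exact hui.restrict
    exact (hemb.integrable_map_iff).1 h1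
  refine ⟨ν, w, hνfin, hwi, ?_⟩
  have hrep : ∀ φ : testSub A, ∫ y, (φ : 𝓢(ℝ, ℂ)) y * ext0 f y =
      ∫ y, (φ : 𝓢(ℝ, ℂ)) y * ∫ s, ex y s * w s ∂ν := by
    intro φ
    have h1 : l φ = ∫ z, T φ z * u z ∂μ := by rw [← hΨ φ, hu]
    have h2 : ∫ z, T φ z * u z ∂μ = ∫ z in range ((↑) : ℝ → OnePoint ℝ), T φ z * u z ∂μ := by
      symm
      apply setIntegral_eq_integral_of_forall_compl_eq_zero
      intro z hz
      have : z = OnePoint.infty := by
        by_contra h
        exact hz (OnePoint.ne_infty_iff_exists.1 h)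
      rw [this, hT', zero_mul]
    have h3 : ∫ z in range ((↑) : ℝ → OnePoint ℝ), T φ z * u z ∂μ =
        ∫ s, 𝓕 ((φ : 𝓢(ℝ, ℂ)) : ℝ → ℂ) s * w s ∂ν := by
      rw [← hνmap, hemb.integral_map]
      rfl
    have h4 : ∀ s : ℝ, 𝓕 ((φ : 𝓢(ℝ, ℂ)) : ℝ → ℂ) s = ∫ y, (φ : 𝓢(ℝ, ℂ)) y * ex y s := by
      intro s
      rw [Real.fourier_real_eq_integral_exp_smul]
      congr 1
      funext y
      rw [smul_eq_mul, mul_comm]
      unfold ex
      congr 2
      push_cast
      ring
    change l φ = _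
    rw [h1, h2, h3]
    simp_rw [h4, ← integral_const_mul, ← integral_mul_const]
    rw [integral_integral_swap]
    · congr 1
      funext y
      congr 1
      funext s
      ring
    · have h5 : Integrable (fun p : ℝ × ℝ => w p.1 * (φ : 𝓢(ℝ, ℂ)) p.2) (ν.prod volume) :=
        hwi.mul_prod (φ : 𝓢(ℝ, ℂ)).integrable
      have h6 : (Function.uncurry fun (s y : ℝ) => (φ : 𝓢(ℝ, ℂ)) y * ex y s * w s) =
          fun p : ℝ × ℝ => ex p.2 p.1 * (w p.1 * (φ : 𝓢(ℝ, ℂ)) p.2) := by
        funext p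
        simp only [Function.uncurry]
        ring
      rw [h6]
      refine h5.bdd_mul (c := 1) ?_ (ae_of_all _ fun p => (norm_ex _ _).le)
      exact (continuous_ex.comp (by fun_prop : Continuous fun p : ℝ × ℝ => (p.2, p.1))).aestronglyMeasurable
  set g : ℝ → ℂ := fun y => ∫ s, ex y s * w s ∂ν with hg
  have hgc : Continuous g := continuous_integral_ex hwi
  have hloc : LocallyIntegrable (fun y => ext0 f y - g y) := by
    refine LocallyIntegrable.sub ?_ hgc.locallyIntegrable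
    have : LocallyIntegrable (fun _ : ℝ => C) := continuous_const.locallyIntegrable
    refine this.mono hFm.aestronglyMeasurable (ae_of_all _ fun y => ?_)
    rw [Real.norm_of_nonneg hC]
    exact hFb y
  have hae := (isOpen_dom A).ae_eq_zero_of_integral_contDiff_smul_eq_zero
    (μ := (volume : Measure ℝ)) (f := fun y => ext0 f y - g y) (hloc.locallyIntegrableOn _) (by
      intro k hk hks hkA
      let k' : ℝ → ℂ := fun y => (k y : ℂ)
      have hk's : HasCompactSupport k' := hks.comp_left Complex.ofReal_zero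
      have hk'c : ContDiff ℝ (⊤ : ℕ∞) k' := Complex.ofRealCLM.contDiff.comp hk
      have hk't : tsupport k' ⊆ tsupport k := closure_mono (fun x hx => by
        rw [Function.mem_support] at hx ⊢
        exact fun h => hx (by simp only [k', h, Complex.ofReal_zero]))
      let φ : testSub A := ⟨hk's.toSchwartzMap hk'c, hk's, hk't.trans hkA⟩
      have h1 := hrep φ
      have h2 : ∀ y, (φ : 𝓢(ℝ, ℂ)) y = (k y : ℂ) := fun y => rfl
      have h3 : ∀ y, k y • (ext0 f y - g y) = (φ : 𝓢(ℝ, ℂ)) y * ext0 f y - (φ : 𝓢(ℝ, ℂ)) y * g y := by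
        intro y
        rw [h2, Complex.real_smul, mul_sub]
      simp_rw [h3]
      rw [integral_sub (hint φ), h1, sub_self]
      have h4 : ∀ y, (φ : 𝓢(ℝ, ℂ)) y * g y = g y * (φ : 𝓢(ℝ, ℂ)) y := fun y => mul_comm _ _
      simp_rw [h4]
      refine (φ : 𝓢(ℝ, ℂ)).integrable.bdd_mul (c := ∫ s, ‖w s‖ ∂ν) hgc.aestronglyMeasurable ?_
      refine ae_of_all _ fun y => ?_
      refine (norm_integral_le_integral_norm _).trans_eq ?_
      congr 1
      funext s
      rw [norm_mul, norm_ex, one_mul])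
  have h5 : ∀ᵐ y : Dom A ∂(leb A), ext0 f (y : ℝ) = g y := by
    rw [ae_dom_iff (p := fun y => ext0 f y = g y)]
    filter_upwards [hae] with y hy hyA
    exact sub_eq_zero.1 (hy hyA)
  filter_upwards [h5] with y hy
  rw [← ext0_coe f y, hy]

/-- Every Lebesgue measurable element of `R_A` is the sum of a continuous element of `R_A` and a
measurable element of `R_A` which vanishes almost everywhere. -/
theorem split {f : Dom A → ℂ} (hf : MemR f) (hm : AEMeasurable f (leb A)) :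
    ∃ fc fm : Dom A → ℂ, MemR fc ∧ Continuous fc ∧ MemR fm ∧ AEMeasurable fm (leb A) ∧
      (∀ᵐ y ∂(leb A), fm y = 0) ∧ ∀ y, f y = fc y + fm y := by
  obtain ⟨ν, w, hν, hw, hae⟩ := exists_rep hf hm
  have hfc : MemR (fun l : Dom A => ∫ s, ex l s * w s ∂ν) := memR_ex hw
  have hcont : Continuous (fun l : Dom A => ∫ s, ex l s * w s ∂ν) :=
    (continuous_integral_ex hw).comp continuous_subtype_val
  refine ⟨fun l => ∫ s, ex l s * w s ∂ν, fun l => f l - ∫ s, ex l s * w s ∂ν, hfc, hcont,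
    hf.sub hfc, hm.sub hcont.aemeasurable, ?_, fun y => by ring⟩
  filter_upwards [hae] with y hy
  rw [hy, sub_self]

end Pool.Agent.H731R2
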