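import Mathlib
import Pool.Agent.H731R2.NullProj
import Pool.Agent.H731R2.Split

/-!
# The Bohr compactification of the line and null elements of `R_A`
-/

set_option autoImplicit false
set_option linter.unusedSectionVars false

open MeasureTheory Filter Topology Set
open scoped InnerProductSpace

namespace Pool.Agent.H731R2

/-- The embedding of the line in the product of circles indexed by the frequencies. -/
noncomputable def emb (t : ℝ) : ℝ → Circle := fun l => Circle.exp (l * t)

/-- The Bohr compactification of the line. -/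
def Bohr : Type := (closure (range emb) : Set (ℝ → Circle))

instance : TopologicalSpace Bohr := inferInstanceAs (TopologicalSpace (closure (range emb)))
instance : T2Space Bohr := inferInstanceAs (T2Space (closure (range emb)))
instance : CompactSpace Bohr := isCompact_iff_compactSpace.1 isClosed_closure.isCompact
instance : MeasurableSpace Bohr := borel _
instance : BorelSpace Bohr := ⟨rfl⟩

/-- Points of the line as points of the compactification. -/
noncomputable def pt (t : ℝ) : Bohr := ⟨emb t, subset_closure ⟨t, rfl⟩⟩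

/-- The characters. -/
noncomputable def chr (l : ℝ) : C(Bohr, ℂ) :=
  ⟨fun x => ((x.1 l : Circle) : ℂ),
    continuous_subtype_val.comp ((continuous_apply l).comp continuous_subtype_val)⟩

theorem chr_pt (l t : ℝ) : chr l (pt t) = Complex.exp (Complex.I * ((l : ℂ) * (t : ℂ))) := by
  change ((Circle.exp (l * t) : Circle) : ℂ) = _
  rw [Circle.coe_exp]
  congr 1
  push_cast
  ring

theorem norm_chr (l : ℝ) (x : Bohr) : ‖chr l x‖ = 1 := Circle.norm_coe _

/-- A closed condition that holds on the line holds on the compactification. -/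
theorem bohr_induction {p : Bohr → Prop} (hp : IsClosed {x | p x}) (h : ∀ t, p (pt t)) (x : Bohr) :
    p x := by
  have hd : DenseRange pt := by
    intro y
    rw [mem_closure_iff_nhds]
    intro V hV
    obtain ⟨W, hW, hWV⟩ := mem_nhds_subtype _ _ _ |>.1 hV
    obtain ⟨z, hz, t, rfl⟩ := mem_closure_iff_nhds.1 y.2 W hW
    exact ⟨pt t, hWV hz, t, rfl⟩
  exact hd.induction_on (p := p) x hp h

theorem chr_add (l m : ℝ) (x : Bohr) : chr (l + m) x = chr l x * chr m x := by
  refine bohr_induction (p := fun x => chr (l + m) x = chr l x * chr m x) ?_ ?_ x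
  · exact isClosed_eq (chr _).continuous ((chr l).continuous.mul (chr m).continuous)
  · intro t
    rw [chr_pt, chr_pt, chr_pt, ← Complex.exp_add]
    congr 1
    push_cast
    ring

theorem chr_neg (l : ℝ) (x : Bohr) : chr (-l) x = (starRingEnd ℂ) (chr l x) := by
  refine bohr_induction (p := fun x => chr (-l) x = (starRingEnd ℂ) (chr l x)) ?_ ?_ x
  · exact isClosed_eq (chr _).continuous (Complex.continuous_conj.comp (chr l).continuous)
  · intro t
    rw [chr_pt, chr_pt, ← Complex.exp_conj]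
    congr 1
    simp only [map_mul, Complex.conj_I, Complex.conj_ofReal]
    push_cast
    ring

variable {A : EReal}

/-- The trigonometric polynomial on the compactification. -/
noncomputable def bohrPoly (A : EReal) : (Dom A →₀ ℂ) →ₗ[ℂ] C(Bohr, ℂ) :=
  Finsupp.lsum ℂ fun l => (LinearMap.toSpanSingleton ℂ C(Bohr, ℂ) (chr l))

theorem bohrPoly_apply (c : Dom A →₀ ℂ) (x : Bohr) :
    bohrPoly A c x = c.sum fun l a => a * chr l x := by
  unfold bohrPoly
  rw [Finsupp.lsum_apply]
  unfold Finsupp.sum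
  rw [ContinuousMap.sum_apply]
  rfl

theorem bohrPoly_pt (c : Dom A →₀ ℂ) (t : ℝ) : bohrPoly A c (pt t) = apPoly c t := by
  rw [bohrPoly_apply]
  unfold apPoly
  simp_rw [chr_pt]

theorem norm_bohrPoly_le (c : Dom A →₀ ℂ) (x : Bohr) :
    ‖c.sum fun l a => a * chr l x‖ ≤ ⨆ t : ℝ, ‖apPoly c t‖ := by
  rw [← bohrPoly_apply]
  refine bohr_induction (p := fun x => ‖bohrPoly A c x‖ ≤ ⨆ t : ℝ, ‖apPoly c t‖) ?_ ?_ x
  · exact isClosed_le (bohrPoly A c).continuous.norm continuous_const
  · intro t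
    rw [bohrPoly_pt]
    exact le_sup c t

theorem bohrPoly_nonneg (c : Dom A →₀ ℂ) (hc : ∀ t : ℝ, (apPoly c t).im = 0 ∧ 0 ≤ (apPoly c t).re)
    (x : Bohr) : (c.sum fun l a => a * chr l x).im = 0 ∧ 0 ≤ (c.sum fun l a => a * chr l x).re := by
  rw [← bohrPoly_apply]
  refine bohr_induction (p := fun x => (bohrPoly A c x).im = 0 ∧ 0 ≤ (bohrPoly A c x).re) ?_ ?_ x
  · have h1 : IsClosed {x | (bohrPoly A c x).im = 0} :=
      isClosed_eq (Complex.continuous_im.comp (bohrPoly A c).continuous) continuous_const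
    have h2 : IsClosed {x | 0 ≤ (bohrPoly A c x).re} :=
      isClosed_le continuous_const (Complex.continuous_re.comp (bohrPoly A c).continuous)
    exact h1.inter h2
  · intro t
    rw [bohrPoly_pt]
    exact hc t

/-- Representation of an element of `R_A` on the compactification. -/
theorem exists_bohr_rep {f : Dom A → ℂ} (hf : MemR f) :
    ∃ (μ : Measure Bohr) (_ : IsFiniteMeasure μ) (u : Lp ℂ 2 μ),
      ∀ l : Dom A, f l = ∫ x, chr l x * u x ∂μ := by
  obtain ⟨C, hC, hfC⟩ := hf.exists_nonneg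
  let l : (Dom A →₀ ℂ) →ₗ[ℂ] ℂ :=
    { toFun := pairing f
      map_add' := pairing_add f
      map_smul' := by
        intro r c
        rw [pairing_smul]
        rfl }
  obtain ⟨Ψ, -, hΨ⟩ := exists_functional (bohrPoly A) l C hC (by
    intro c
    refine (hfC c).trans (mul_le_mul_of_nonneg_left ?_ hC)
    refine ciSup_le fun t => ?_
    rw [← bohrPoly_pt]
    exact (bohrPoly A c).norm_coe_le_norm _)
  obtain ⟨μ, hμ, -, u, hu⟩ := exists_density Ψ
  refine ⟨μ, hμ, u, fun y => ?_⟩
  have h1 : pairing f (Finsupp.single y 1) = f y := by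
    unfold pairing
    rw [Finsupp.sum_single_index (by simp), one_mul]
  have h2 : bohrPoly A (Finsupp.single y 1) = chr y := by
    ext x
    rw [bohrPoly_apply, Finsupp.sum_single_index (by simp), one_mul]
  have h3 := hΨ (Finsupp.single y 1)
  rw [h2, hu] at h3
  rw [h3]
  exact h1.symm

section Mult

variable {X : Type*} [MeasurableSpace X] {μ : Measure X}

theorem memLp_mul (b : X → ℂ) (hb : AEStronglyMeasurable b μ) (hb1 : ∀ x, ‖b x‖ ≤ 1)
    (g : Lp ℂ 2 μ) : MemLp (fun x => b x * g x) 2 μ :=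
  MemLp.of_le (Lp.memLp g) (hb.mul (Lp.aestronglyMeasurable g)) (ae_of_all _ fun x => by
    rw [norm_mul]; exact mul_le_of_le_one_left (norm_nonneg _) (hb1 x))

/-- Multiplication by a bounded function, on `L²`. -/
noncomputable def mulOp (b : X → ℂ) (hb : AEStronglyMeasurable b μ) (hb1 : ∀ x, ‖b x‖ ≤ 1) :
    Lp ℂ 2 μ →L[ℂ] Lp ℂ 2 μ :=
  LinearMap.mkContinuous
    { toFun := fun g => MemLp.toLp (fun x => b x * g x) (memLp_mul b hb hb1 g)
      map_add' := by
        intro g h
        rw [← MemLp.toLp_add]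
        apply MemLp.toLp_congr
        filter_upwards [Lp.coeFn_add g h] with x hx
        rw [hx, Pi.add_apply, Pi.add_apply, mul_add]
      map_smul' := by
        intro c g
        rw [RingHom.id_apply, ← MemLp.toLp_const_smul]
        apply MemLp.toLp_congr
        filter_upwards [Lp.coeFn_smul c g] with x hx
        rw [hx, Pi.smul_apply, Pi.smul_apply, smul_eq_mul, smul_eq_mul]
        ring } 1 (by
      intro g
      rw [one_mul]
      change ‖MemLp.toLp (fun x => b x * g x) (memLp_mul b hb hb1 g)‖ ≤ ‖g‖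
      apply Lp.norm_le_norm_of_ae_le
      filter_upwards [MemLp.coeFn_toLp (memLp_mul b hb hb1 g)] with x hx
      rw [hx, norm_mul]
      exact mul_le_of_le_one_left (norm_nonneg _) (hb1 x))

theorem coeFn_mulOp (b : X → ℂ) (hb : AEStronglyMeasurable b μ) (hb1 : ∀ x, ‖b x‖ ≤ 1)
    (g : Lp ℂ 2 μ) : (mulOp b hb hb1 g : X → ℂ) =ᵐ[μ] fun x => b x * g x :=
  MemLp.coeFn_toLp (memLp_mul b hb hb1 g)

theorem norm_mulOp_le (b : X → ℂ) (hb : AEStronglyMeasurable b μ) (hb1 : ∀ x, ‖b x‖ ≤ 1)
    (g : Lp ℂ 2 μ) : ‖mulOp b hb hb1 g‖ ≤ ‖g‖ := by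
  apply Lp.norm_le_norm_of_ae_le
  filter_upwards [coeFn_mulOp b hb hb1 g] with x hx
  rw [hx, norm_mul]
  exact mul_le_of_le_one_left (norm_nonneg _) (hb1 x)

end Mult

section Null

variable {μ : Measure Bohr} [IsFiniteMeasure μ]

/-- Multiplication by the characters. -/
noncomputable def UU (μ : Measure Bohr) [IsFiniteMeasure μ] (a : ℝ) : Lp ℂ 2 μ →L[ℂ] Lp ℂ 2 μ :=
  mulOp (chr a) (chr a).continuous.aestronglyMeasurable (fun x => (norm_chr a x).le)

theorem coeFn_UU (a : ℝ) (g : Lp ℂ 2 μ) : (UU μ a g : Bohr → ℂ) =ᵐ[μ] fun x => chr a x * g x :=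
  coeFn_mulOp _ _ _ _

theorem UU_add (a b : ℝ) (g : Lp ℂ 2 μ) : UU μ (a + b) g = UU μ a (UU μ b g) := by
  apply Lp.ext
  filter_upwards [coeFn_UU (a + b) g, coeFn_UU a (UU μ b g), coeFn_UU b g] with x h1 h2 h3
  rw [h1, h2, h3, chr_add, mul_assoc]

theorem norm_UU (a : ℝ) (g : Lp ℂ 2 μ) : ‖UU μ a g‖ ≤ ‖g‖ := norm_mulOp_le _ _ _ _

theorem inner_UU (a : ℝ) (g h : Lp ℂ 2 μ) :
    ⟪g, UU μ a h⟫_ℂ = ∫ x, (starRingEnd ℂ) (g x) * (chr a x * h x) ∂μ := by
  rw [MeasureTheory.L2.inner_def]
  apply integral_congr_ae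
  filter_upwards [coeFn_UU a h] with x hx
  rw [hx]
  simp [mul_comm]

theorem UU_adj (a : ℝ) (g h : Lp ℂ 2 μ) : ⟪UU μ a g, h⟫_ℂ = ⟪g, UU μ (-a) h⟫_ℂ := by
  rw [inner_UU, MeasureTheory.L2.inner_def]
  apply integral_congr_ae
  filter_upwards [coeFn_UU a g] with x hx
  rw [hx, chr_neg]
  simp only [RCLike.inner_apply, map_mul]
  ring

/-- The null subspace is invariant under multiplication by bounded functions. -/
theorem mulOp_mem_null (b : Bohr → ℂ) (hb : AEStronglyMeasurable b μ) (hb1 : ∀ x, ‖b x‖ ≤ 1)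
    {p : Lp ℂ 2 μ} (hp : p ∈ nullSub (UU μ)) : mulOp b hb hb1 p ∈ nullSub (UU μ) := by
  intro y
  have hb' : AEStronglyMeasurable (fun x => (starRingEnd ℂ) (b x)) μ :=
    Complex.continuous_conj.comp_aestronglyMeasurable hb
  have hb1' : ∀ x, ‖(starRingEnd ℂ) (b x)‖ ≤ 1 := fun x => by
    rw [RCLike.norm_conj]; exact hb1 x
  filter_upwards [hp (mulOp (fun x => (starRingEnd ℂ) (b x)) hb' hb1' y)] with a ha
  rw [inner_UU] at ha ⊢
  rw [← ha]
  apply integral_congr_ae
  filter_upwards [coeFn_mulOp b hb hb1 p,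
    coeFn_mulOp (fun x => (starRingEnd ℂ) (b x)) hb' hb1' y] with x h1 h2
  rw [h1, h2]
  simp only [map_mul, Complex.conj_conj]
  ring

/-- The null subspace is invariant under complex conjugation. -/
theorem star_mem_null {p : Lp ℂ 2 μ} (hp : p ∈ nullSub (UU μ)) : star p ∈ nullSub (UU μ) := by
  intro y
  have h1 := hp (star y)
  have h2 : ∀ᵐ a : ℝ, ⟪star y, UU μ (-a) p⟫_ℂ = 0 :=
    (Measure.measurePreserving_neg (volume : Measure ℝ)).quasiMeasurePreserving.ae h1
  filter_upwards [h2] with a ha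
  have h3 : ⟪y, UU μ a (star p)⟫_ℂ = (starRingEnd ℂ) ⟪star y, UU μ (-a) p⟫_ℂ := by
    rw [inner_UU, inner_UU, ← integral_conj]
    apply integral_congr_ae
    filter_upwards [Lp.coeFn_star p, Lp.coeFn_star y] with x h4 h5
    rw [h4, h5, chr_neg]
    simp
  rw [h3, ha, map_zero]

/-- A Hermitian element of `R_A` which vanishes almost everywhere is the difference of two
non-negative elements which vanish almost everywhere. -/
theorem null_jordan {f : Dom A → ℂ} (hf : MemR f) (hH : Hermitian f)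
    (h0 : ∀ᵐ y ∂(leb A), f y = 0) :
    ∃ f₁ f₂ : Dom A → ℂ, MemP f₁ ∧ MemP f₂ ∧ (∀ᵐ y ∂(leb A), f₁ y = 0) ∧
      (∀ᵐ y ∂(leb A), f₂ y = 0) ∧ ∀ y, f y = f₁ y - f₂ y := by
  obtain ⟨μ, hμ, u, hu⟩ := exists_bohr_rep hf
  -- the constant function
  let one : Lp ℂ 2 μ := MemLp.toLp (fun _ => (1 : ℂ)) (memLp_const 1)
  have hone : (one : Bohr → ℂ) =ᵐ[μ] fun _ => (1 : ℂ) := MemLp.coeFn_toLp _
  have hinner : ∀ (a : ℝ) (g : Lp ℂ 2 μ), ⟪one, UU μ a g⟫_ℂ = ∫ x, chr a x * g x ∂μ := by
    intro a g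
    rw [inner_UU]
    apply integral_congr_ae
    filter_upwards [hone] with x hx
    rw [hx]
    simp
  have h0' : ∀ᵐ a : ℝ, a ∈ Dom A → ⟪one, UU μ a u⟫_ℂ = 0 := by
    rw [← ae_dom_iff (p := fun a => ⟪one, UU μ a u⟫_ℂ = 0)]
    filter_upwards [h0] with y hy
    rw [hinner, ← hu y, hy]
  obtain ⟨p, hp, hpf⟩ := exists_null_part (fun a b x => UU_add a b x) (fun a x y => UU_adj a x y)
    (fun a x => norm_UU a x) (isOpen_dom A) h0'
  -- the real part of `p`, and its positive and negative parts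
  set q : Lp ℂ 2 μ := (1 / 2 : ℂ) • (p + star p) with hq
  have hqnull : q ∈ nullSub (UU μ) :=
    (nullSub (UU μ)).smul_mem _ ((nullSub (UU μ)).add_mem hp (star_mem_null hp))
  set w : Bohr → ℝ := fun x => (p x).re with hw
  have hqw : (q : Bohr → ℂ) =ᵐ[μ] fun x => (w x : ℂ) := by
    filter_upwards [Lp.coeFn_smul (1 / 2 : ℂ) (p + star p), Lp.coeFn_add p (star p),
      Lp.coeFn_star p] with x h1 h2 h3
    rw [hq, h1, Pi.smul_apply, h2, Pi.add_apply, h3, Pi.star_apply, smul_eq_mul]
    apply Complex.ext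
    · simp [hw]; ring
    · simp
  have hpm : AEStronglyMeasurable (p : Bohr → ℂ) μ := Lp.aestronglyMeasurable p
  have hpi : Integrable (p : Bohr → ℂ) μ := (Lp.memLp p).integrable (by norm_num)
  have hwi : Integrable w μ := hpi.re
  have hwm : Measurable (p : Bohr → ℂ) := (Lp.stronglyMeasurable p).measurable
  have hwm' : Measurable w := Complex.measurable_re.comp hwm
  set w1 : Bohr → ℝ := fun x => max (w x) 0 with hw1
  set w2 : Bohr → ℝ := fun x => max (-w x) 0 with hw2
  have hw1i : Integrable w1 μ := hwi.pos_part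
  have hw2i : Integrable w2 μ := hwi.neg_part
  have hw12 : ∀ x, w x = w1 x - w2 x := by
    intro x
    simp only [hw1, hw2]
    rcases le_total (w x) 0 with h | h
    · rw [max_eq_right h, max_eq_left (by linarith)]; ring
    · rw [max_eq_left h, max_eq_right (by linarith)]; ring
  -- the value of `f`
  have hfp : ∀ l : Dom A, f l = ∫ x, chr l x * p x ∂μ := by
    intro l
    rw [hu l, ← hinner, ← hinner]
    exact hpf l l.2
  have hchi : ∀ (a : ℝ) {g : Bohr → ℂ}, Integrable g μ → Integrable (fun x => chr a x * g x) μ := by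
    intro a g hg
    exact hg.bdd_mul (c := 1) (chr a).continuous.aestronglyMeasurable
      (ae_of_all _ fun x => (norm_chr a x).le)
  have hfw : ∀ l : Dom A, f l = ∫ x, chr l x * (w x : ℂ) ∂μ := by
    intro l
    have h1 : f l = (starRingEnd ℂ) (f ⟨-(l : ℝ), neg_mem_dom l.2⟩) := by
      rw [hH l, Complex.conj_conj]
    have h2 : (starRingEnd ℂ) (f ⟨-(l : ℝ), neg_mem_dom l.2⟩) =
        ∫ x, chr l x * (starRingEnd ℂ) (p x) ∂μ := by
      rw [hfp, ← integral_conj]
      congr 1
      funext x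
      simp only
      rw [chr_neg, map_mul, Complex.conj_conj]
    have h3 : f l = (1 / 2 : ℂ) * (f l + f l) := by ring
    have hpi' : Integrable (fun x => (starRingEnd ℂ) (p x)) μ :=
      (LinearIsometryEquiv.integrable_comp_iff Complex.conjLIE).2 hpi
    rw [h3]
    nth_rewrite 2 [h1]
    rw [h2, hfp l, ← integral_add (hchi l hpi) (hchi l hpi'), ← integral_const_mul]
    congr 1
    funext x
    have : (w x : ℂ) = (1 / 2 : ℂ) * (p x + (starRingEnd ℂ) (p x)) := by
      rw [Complex.add_conj]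
      simp [hw]
    rw [this]
    ring
  -- nullness of the parts
  have hnull : ∀ (v : Bohr → ℝ) (s : Set Bohr) (ε : ℝ), MeasurableSet s → |ε| ≤ 1 →
      (∀ x, v x = s.indicator (fun x => ε * w x) x) →
      ∀ᵐ a : ℝ, ∫ x, chr a x * (v x : ℂ) ∂μ = 0 := by
    intro v s ε hs hε hv
    classical
    let b : Bohr → ℂ := s.indicator (fun _ => (ε : ℂ))
    have hb : AEStronglyMeasurable b μ := (measurable_const.indicator hs).aestronglyMeasurable
    have hb1 : ∀ x, ‖b x‖ ≤ 1 := by
      intro x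
      by_cases hx : x ∈ s
      · simp only [b, indicator_of_mem hx, Complex.norm_real]
        exact hε
      · simp [b, indicator_of_notMem hx]
    have h1 := mulOp_mem_null b hb hb1 hqnull one
    filter_upwards [h1] with a ha
    rw [hinner] at ha
    rw [← ha]
    apply integral_congr_ae
    filter_upwards [coeFn_mulOp b hb hb1 q, hqw] with x h2 h3
    rw [h2, h3, hv x]
    by_cases hx : x ∈ s
    · simp [b, indicator_of_mem hx]
    · simp [b, indicator_of_notMem hx]
  have hn1 : ∀ᵐ a : ℝ, ∫ x, chr a x * (w1 x : ℂ) ∂μ = 0 := by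
    refine hnull w1 {x | 0 ≤ w x} 1 (measurableSet_le measurable_const hwm') (by norm_num) ?_
    intro x
    by_cases hx : 0 ≤ w x
    · rw [indicator_of_mem (show x ∈ {x | 0 ≤ w x} from hx)]
      simp [hw1, hx]
    · rw [indicator_of_notMem (show x ∉ {x | 0 ≤ w x} from hx)]
      simp only [hw1]
      exact max_eq_right (not_le.1 hx).le
  have hn2 : ∀ᵐ a : ℝ, ∫ x, chr a x * (w2 x : ℂ) ∂μ = 0 := by
    refine hnull w2 {x | w x ≤ 0} (-1) (measurableSet_le hwm' measurable_const) (by norm_num) ?_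
    intro x
    by_cases hx : w x ≤ 0
    · rw [indicator_of_mem (show x ∈ {x | w x ≤ 0} from hx)]
      simp [hw2, hx]
    · rw [indicator_of_notMem (show x ∉ {x | w x ≤ 0} from hx)]
      simp only [hw2]
      exact max_eq_right (by linarith [not_le.1 hx])
  have hae : ∀ (v : Bohr → ℝ), (∀ᵐ a : ℝ, ∫ x, chr a x * (v x : ℂ) ∂μ = 0) →
      ∀ᵐ y : Dom A ∂(leb A), ∫ x, chr (y : ℝ) x * (v x : ℂ) ∂μ = 0 := by
    intro v hv
    rw [ae_dom_iff (p := fun y => ∫ x, chr y x * (v x : ℂ) ∂μ = 0)]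
    filter_upwards [hv] with a ha _
    exact ha
  have hP : ∀ (v : Bohr → ℝ), Integrable v μ → (∀ x, 0 ≤ v x) →
      MemP (fun l : Dom A => ∫ x, chr l x * (v x : ℂ) ∂μ) := by
    intro v hv hv0
    exact memP_of_integral (e := fun (l : Dom A) x => chr l x)
      (fun l => (chr l).continuous.aestronglyMeasurable) (fun l x => (norm_chr l x).le) hv hv0
      norm_bohrPoly_le bohrPoly_nonneg
  refine ⟨fun l => ∫ x, chr l x * (w1 x : ℂ) ∂μ, fun l => ∫ x, chr l x * (w2 x : ℂ) ∂μ,
    hP w1 hw1i (fun x => le_max_right _ _), hP w2 hw2i (fun x => le_max_right _ _),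
    hae w1 hn1, hae w2 hn2, fun l => ?_⟩
  have hw1c : Integrable (fun x => (w1 x : ℂ)) μ := hw1i.ofReal
  have hw2c : Integrable (fun x => (w2 x : ℂ)) μ := hw2i.ofReal
  rw [hfw l, ← integral_sub (hchi l hw1c) (hchi l hw2c)]
  congr 1
  funext x
  rw [hw12 x]
  push_cast
  ring

end Null

end Pool.Agent.H731R2
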