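import Mathlib
import Pool.Agent.H731R2.Bohr

set_option autoImplicit false
set_option linter.unusedSectionVars false

open MeasureTheory Filter Topology Set

namespace Pool.Agent.H731R2

variable {A : EReal}

theorem MemP.add {f g : Dom A → ℂ} (hf : MemP f) (hg : MemP g) : MemP (fun l => f l + g l) := by
  refine ⟨hf.1.add hg.1, fun c hc => ?_⟩
  have : pairing (fun l => f l + g l) c = pairing f c + pairing g c := by
    unfold pairing Finsupp.sum
    rw [← Finset.sum_add_distrib]
    exact Finset.sum_congr rfl fun _ _ => by ring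
  rw [this, Complex.add_im, Complex.add_re, (hf.2 c hc).1, (hg.2 c hc).1, add_zero]
  exact ⟨rfl, add_nonneg (hf.2 c hc).2 (hg.2 c hc).2⟩

theorem ex_neg (y s : ℝ) : ex (-y) s = (starRingEnd ℂ) (ex y s) := by
  unfold ex
  rw [← Complex.exp_conj]
  congr 1
  simp only [map_mul, Complex.conj_I, Complex.conj_ofReal]
  push_cast
  ring

/-- Every Hermitian measurable element of `R_A` is a difference of measurable elements of the cone. -/
theorem jordan {f : Dom A → ℂ} (hf : MemR f) (hm : AEMeasurable f (leb A)) (hH : Hermitian f) :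
    ∃ f₁ f₂ : Dom A → ℂ, (MemP f₁ ∧ AEMeasurable f₁ (leb A)) ∧ (MemP f₂ ∧ AEMeasurable f₂ (leb A)) ∧
      ∀ y, f y = f₁ y - f₂ y := by
  obtain ⟨ν, w, hν, hw, hae⟩ := exists_rep hf hm
  set r : ℝ → ℝ := fun s => (w s).re with hr
  have hri : Integrable r ν := hw.re
  have hri' : Integrable (fun s => (r s : ℂ)) ν := hri.ofReal
  -- the Hermitian part of the continuous part
  set g : ℝ → ℂ := fun y => ∫ s, ex y s * (r s : ℂ) ∂ν with hg
  have hexi : ∀ (y : ℝ) {h : ℝ → ℂ}, Integrable h ν → Integrable (fun s => ex y s * h s) ν := by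
    intro y h hh
    exact hh.bdd_mul (c := 1) ((continuous_ex.comp
      (by fun_prop : Continuous fun s : ℝ => (y, s))).aestronglyMeasurable)
      (ae_of_all _ fun s => (norm_ex y s).le)
  have hgH : ∀ y, g (-y) = (starRingEnd ℂ) (g y) := by
    intro y
    simp only [hg]
    rw [← integral_conj]
    congr 1
    funext s
    rw [ex_neg, map_mul, Complex.conj_ofReal]
  have hgw : ∀ y, g y = (1 / 2 : ℂ) * ((∫ s, ex y s * w s ∂ν) +
      (starRingEnd ℂ) (∫ s, ex (-y) s * w s ∂ν)) := by
    intro y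
    have hwc : Integrable (fun s => (starRingEnd ℂ) (w s)) ν :=
      (LinearIsometryEquiv.integrable_comp_iff Complex.conjLIE).2 hw
    rw [← integral_conj]
    have h1 : ∀ s, (starRingEnd ℂ) (ex (-y) s * w s) = ex y s * (starRingEnd ℂ) (w s) := by
      intro s
      rw [map_mul, ex_neg, Complex.conj_conj]
    simp_rw [h1]
    rw [← integral_add (hexi y hw) (hexi y hwc), ← integral_const_mul]
    simp only [hg]
    congr 1
    funext s
    have : (r s : ℂ) = (1 / 2 : ℂ) * (w s + (starRingEnd ℂ) (w s)) := by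
      rw [Complex.add_conj]
      simp [hr]
    rw [this]
    ring
  have hgae : ∀ᵐ y : Dom A ∂(leb A), f y = g y := by
    -- both `y` and `-y` are good
    have h1 : ∀ᵐ y : ℝ, y ∈ Dom A → ext0 f y = ∫ s, ex y s * w s ∂ν := by
      rw [← ae_dom_iff (p := fun y => ext0 f y = ∫ s, ex y s * w s ∂ν)]
      filter_upwards [hae] with y hy
      rw [ext0_coe, hy]
    have h2 : ∀ᵐ y : ℝ, -y ∈ Dom A → ext0 f (-y) = ∫ s, ex (-y) s * w s ∂ν :=
      (Measure.measurePreserving_neg (volume : Measure ℝ)).quasiMeasurePreserving.ae h1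
    have h3 : ∀ᵐ y : Dom A ∂(leb A), ext0 f (y : ℝ) = g y := by
      rw [ae_dom_iff (p := fun y => ext0 f y = g y)]
      filter_upwards [h1, h2] with y hy1 hy2 hyA
      rw [hgw, ← hy1 hyA, ← hy2 (neg_mem_dom hyA)]
      have h4 : ext0 f (-y) = (starRingEnd ℂ) (ext0 f y) := by
        have h5 := hH ⟨y, hyA⟩
        have h6 := ext0_coe f ⟨-y, neg_mem_dom hyA⟩
        have h7 := ext0_coe f ⟨y, hyA⟩
        simp only at h5 h6 h7
        rw [h6, h7, h5]
      rw [h4, Complex.conj_conj]
      ring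
    filter_upwards [h3] with y hy
    rw [← ext0_coe f y, hy]
  have hgR : MemR (fun l : Dom A => g l) := memR_ex hri'
  have hgcont : Continuous (fun l : Dom A => g l) :=
    (continuous_integral_ex hri').comp continuous_subtype_val
  -- the null part
  have hkR : MemR (fun l : Dom A => f l - g l) := hf.sub hgR
  have hkH : Hermitian (fun l : Dom A => f l - g l) := by
    intro l
    have h1 := hgH (l : ℝ)
    simp only
    rw [hH l, h1, map_sub]
  have hk0 : ∀ᵐ y : Dom A ∂(leb A), f y - g y = 0 := by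
    filter_upwards [hgae] with y hy
    rw [hy, sub_self]
  obtain ⟨k₁, k₂, hk1, hk2, hk1n, hk2n, hk⟩ := null_jordan hkR hkH hk0
  have hk1m : AEMeasurable k₁ (leb A) := ⟨fun _ => 0, measurable_const, hk1n⟩
  have hk2m : AEMeasurable k₂ (leb A) := ⟨fun _ => 0, measurable_const, hk2n⟩
  set r1 : ℝ → ℝ := fun s => max (r s) 0 with hr1
  set r2 : ℝ → ℝ := fun s => max (-r s) 0 with hr2
  have hr1i : Integrable r1 ν := hri.pos_part
  have hr2i : Integrable r2 ν := hri.neg_part
  have hr12 : ∀ s, r s = r1 s - r2 s := by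
    intro s
    simp only [hr1, hr2]
    rcases le_total (r s) 0 with h | h
    · rw [max_eq_right h, max_eq_left (by linarith)]; ring
    · rw [max_eq_left h, max_eq_right (by linarith)]; ring
  have hr1c : Integrable (fun s => (r1 s : ℂ)) ν := hr1i.ofReal
  have hr2c : Integrable (fun s => (r2 s : ℂ)) ν := hr2i.ofReal
  have hP1 : MemP (fun l : Dom A => ∫ s, ex l s * (r1 s : ℂ) ∂ν) :=
    memP_ex hr1i (fun s => le_max_right _ _)
  have hP2 : MemP (fun l : Dom A => ∫ s, ex l s * (r2 s : ℂ) ∂ν) :=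
    memP_ex hr2i (fun s => le_max_right _ _)
  have hc1 : Continuous (fun l : Dom A => ∫ s, ex l s * (r1 s : ℂ) ∂ν) :=
    (continuous_integral_ex hr1c).comp continuous_subtype_val
  have hc2 : Continuous (fun l : Dom A => ∫ s, ex l s * (r2 s : ℂ) ∂ν) :=
    (continuous_integral_ex hr2c).comp continuous_subtype_val
  refine ⟨fun l => (∫ s, ex l s * (r1 s : ℂ) ∂ν) + k₁ l, fun l => (∫ s, ex l s * (r2 s : ℂ) ∂ν) + k₂ l,
    ⟨hP1.add hk1, hc1.aemeasurable.add hk1m⟩, ⟨hP2.add hk2, hc2.aemeasurable.add hk2m⟩, ?_⟩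
  intro l
  have h1 : g l = (∫ s, ex l s * (r1 s : ℂ) ∂ν) - ∫ s, ex l s * (r2 s : ℂ) ∂ν := by
    rw [← integral_sub (hexi l hr1c) (hexi l hr2c)]
    simp only [hg]
    congr 1
    funext s
    rw [hr12 s]
    push_cast
    ring
  have h2 := hk l
  have h3 : f l = g l + (f l - g l) := by ring
  rw [h3, h2, h1]
  ring

end Pool.Agent.H731R2
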